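import Mathlib

/-!
Definitions for problem MP_bdf4c5_gt.
-/

namespace Pool.Agent.Work.MP_bdf4c5_gt

/-- The co-diagonal of `X`: the complement of the diagonal in `X × X`, with the subspace topology
of the product. -/
def Codiagonal (X : Type) : Type := {p : X × X // p.1 ≠ p.2}

instance (X : Type) [TopologicalSpace X] : TopologicalSpace (Codiagonal X) :=
  inferInstanceAs (TopologicalSpace {p : X × X // p.1 ≠ p.2})

/-- `Z` is discretely σ-compact: the closure in `Z` of every subset which is discrete in its
subspace topology is a countable union of compact sets. -/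
def DiscretelySigmaCompact (Z : Type) [TopologicalSpace Z] : Prop :=
  ∀ D : Set Z, DiscreteTopology D → IsSigmaCompact (closure D)

/-- `N` is a network of `X`: every open set is a union of members of `N`. -/
def IsNetwork {X : Type} [TopologicalSpace X] (N : Set (Set X)) : Prop :=
  ∀ U : Set X, IsOpen U → ∃ S ⊆ N, U = ⋃₀ S

/-- `X` is cosmic: it has a countable network. -/
def Cosmic (X : Type) [TopologicalSpace X] : Prop :=
  ∃ N : Set (Set X), N.Countable ∧ IsNetwork N

end Pool.Agent.Work.MP_bdf4c5_gt
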