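import Pool.Agent.Work.MP_bdf4c5_gt.Space
import Pool.Agent.Work.MP_bdf4c5_gt.Defs

/-!
Topological conclusions.
-/

set_option linter.unusedSectionVars false

namespace Pool.Agent.Work.MP_bdf4c5_gt

open Set

theorem IsNetwork.exists_mem {X : Type} [TopologicalSpace X] {N : Set (Set X)} (h : IsNetwork N)
    {U : Set X} (hU : IsOpen U) {x : X} (hx : x ∈ U) : ∃ B ∈ N, x ∈ B ∧ B ⊆ U := by
  obtain ⟨S, hS, rfl⟩ := h U hU
  obtain ⟨B, hB, hxB⟩ := hx
  exact ⟨B, hS hB, hxB, Set.subset_sUnion_of_mem hB⟩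

theorem isSigmaCompact_of_countable' {X : Type} [TopologicalSpace X] {s : Set X}
    (hs : s.Countable) : IsSigmaCompact s := by
  have : s = ⋃ x ∈ s, {x} := by simp
  rw [this]
  exact isSigmaCompact_biUnion hs (fun x _ => isCompact_singleton.isSigmaCompact)

/-- basic neighbourhoods in `(Ω → Bool) × (Ω → Bool)` -/
theorem exists_finset_nhd {Ω : Type} {V : Set ((Ω → Bool) × (Ω → Bool))} (hV : IsOpen V)
    {x y : Ω → Bool} (hxy : (x, y) ∈ V) :
    ∃ G : Finset Ω, ∀ x' y' : Ω → Bool, (∀ α ∈ G, x' α = x α ∧ y' α = y α) → (x', y') ∈ V := by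
  classical
  rw [isOpen_prod_iff] at hV
  obtain ⟨U1, U2, hU1, hU2, hx, hy, hsub⟩ := hV x y hxy
  rw [isOpen_pi_iff] at hU1 hU2
  obtain ⟨G1, u1, hu1, hsub1⟩ := hU1 x hx
  obtain ⟨G2, u2, hu2, hsub2⟩ := hU2 y hy
  refine ⟨G1 ∪ G2, fun x' y' h => hsub ⟨hsub1 ?_, hsub2 ?_⟩⟩
  · intro α hα
    show x' α ∈ u1 α
    rw [(h α (Finset.mem_union_left _ hα)).1]
    exact (hu1 α hα).2
  · intro α hα
    show y' α ∈ u2 α
    rw [(h α (Finset.mem_union_right _ hα)).2]
    exact (hu2 α hα).2

section

variable {Ω : Type} [LinearOrder Ω] [IsOmega1 Ω]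

namespace Params

variable (P : Params Ω)

/-- The space. -/
def X : Type := ↥(Set.range P.w)

instance : TopologicalSpace P.X := inferInstanceAs (TopologicalSpace ↥(Set.range P.w))

instance : T35Space P.X := inferInstanceAs (T35Space ↥(Set.range P.w))

theorem continuous_val : Continuous (fun x : P.X => (x.1 : Ω → Bool)) := continuous_subtype_val

/-- index of a point -/
noncomputable def idx (x : P.X) : Ω := x.2.choose

theorem w_idx (x : P.X) : P.w (P.idx x) = x.1 := x.2.choose_spec

theorem idx_inj : Function.Injective P.idx := by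
  intro x y h
  apply Subtype.ext
  rw [← P.w_idx x, ← P.w_idx y, h]

/-- points vanishing from `δ0` on -/
def Z (δ0 : Ω) : Set P.X := {x | ∀ α, δ0 ≤ α → x.1 α = false}

theorem isClosed_Z (δ0 : Ω) : IsClosed (P.Z δ0) := by
  have : P.Z δ0 = ⋂ α ∈ Set.Ici δ0, (fun x : P.X => x.1 α) ⁻¹' {false} := by
    ext x
    simp [Z]
  rw [this]
  refine isClosed_biInter (fun α _ => ?_)
  exact (isClosed_discrete _).preimage ((continuous_apply α).comp P.continuous_val)

theorem countable_Z (δ0 : Ω) : (P.Z δ0).Countable := by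
  refine Set.MapsTo.countable_of_injOn (f := P.idx) (t := {β | ∀ α, δ0 ≤ α → P.w β α = false})
    ?_ P.idx_inj.injOn (P.countable_zero δ0)
  intro x hx α hα
  rw [P.w_idx]
  exact hx α hα

theorem mem_Z {δ0 : Ω} {x : P.X} (h : P.idx x < δ0) : x ∈ P.Z δ0 := by
  intro α hα
  rw [← P.w_idx]
  exact P.w_of_le (h.le.trans hα)

theorem not_cosmic : ¬ Cosmic P.X := by
  classical
  rintro ⟨N, hN, hnet⟩
  -- a countable dense set
  have hchoose : ∀ B : Set P.X, B.Nonempty → ∃ x, x ∈ B := fun B hB => hB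
  let f : Set P.X → Set P.X := fun B => if h : B.Nonempty then {h.some} else ∅
  have hf : ∀ B, (f B).Countable := by
    intro B
    by_cases h : B.Nonempty
    · simp [f, h]
    · simp [f, h]
  let D : Set P.X := ⋃ B ∈ N, f B
  have hD : D.Countable := hN.biUnion (fun B _ => hf B)
  obtain ⟨δ0, hδ0⟩ := exists_strict_bound (hD.image P.idx)
  have hDZ : D ⊆ P.Z δ0 := fun x hx => P.mem_Z (hδ0 _ ⟨x, hx, rfl⟩)
  have hZuniv : P.Z δ0 = Set.univ := by
    by_contra hne
    obtain ⟨x, hx⟩ := (Set.ne_univ_iff_exists_notMem _).mp hne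
    obtain ⟨B, hBN, hxB, hBsub⟩ := hnet.exists_mem (P.isClosed_Z δ0).isOpen_compl hx
    have hB : B.Nonempty := ⟨x, hxB⟩
    have h1 : hB.some ∈ D := by
      refine Set.mem_biUnion hBN ?_
      simp [f, hB]
    exact hBsub hB.some_mem (hDZ h1)
  have hcount := P.countable_zero δ0
  have : {β | ∀ α, δ0 ≤ α → P.w β α = false} = Set.univ := by
    ext β
    simp only [Set.mem_univ, iff_true]
    intro α hα
    have : (⟨P.w β, ⟨β, rfl⟩⟩ : P.X) ∈ P.Z δ0 := by rw [hZuniv]; trivial
    exact this α hα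
  rw [this] at hcount
  have hu : Uncountable Ω := IsOmega1.unc
  exact (Set.not_countable_univ_iff.mpr hu) hcount

/-- first index -/
noncomputable def i1 (p : Codiagonal P.X) : Ω := P.idx p.1.1
/-- second index -/
noncomputable def i2 (p : Codiagonal P.X) : Ω := P.idx p.1.2

theorem i_ne (p : Codiagonal P.X) : P.i1 p ≠ P.i2 p := fun h => p.2 (P.idx_inj h)

theorem i_inj {p q : Codiagonal P.X} (h1 : P.i1 p = P.i1 q) (h2 : P.i2 p = P.i2 q) : p = q := by
  apply Subtype.ext
  exact Prod.ext (P.idx_inj h1) (P.idx_inj h2)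

/-- Every discrete subset of the co-diagonal is countable. -/
theorem discrete_countable (D : Set (Codiagonal P.X)) (hD : DiscreteTopology D) :
    D.Countable := by
  classical
  by_contra hunc
  -- separating finite sets
  have hsep : ∀ d ∈ D, ∃ G : Finset Ω, ∀ d' ∈ D,
      (∀ α ∈ G, P.w (P.i1 d') α = P.w (P.i1 d) α ∧ P.w (P.i2 d') α = P.w (P.i2 d) α) → d' = d := by
    intro d hd
    have h1 : IsOpen ({⟨d, hd⟩} : Set D) := isOpen_discrete _
    rw [isOpen_induced_iff] at h1
    obtain ⟨U, hU, hUeq⟩ := h1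
    have hind : Topology.IsInducing (fun p : Codiagonal P.X => ((p.1.1.1 : Ω → Bool),
        (p.1.2.1 : Ω → Bool))) :=
      (Topology.IsInducing.subtypeVal.prodMap Topology.IsInducing.subtypeVal).comp
        Topology.IsInducing.subtypeVal
    rw [hind.isOpen_iff] at hU
    obtain ⟨V, hV, rfl⟩ := hU
    have hdV : ((d.1.1.1 : Ω → Bool), (d.1.2.1 : Ω → Bool)) ∈ V := by
      have : (⟨d, hd⟩ : D) ∈ ({⟨d, hd⟩} : Set D) := rfl
      rw [← hUeq] at this
      exact this
    obtain ⟨G, hG⟩ := exists_finset_nhd hV hdV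
    refine ⟨G, fun d' hd' h => ?_⟩
    have h2 : ((d'.1.1.1 : Ω → Bool), (d'.1.2.1 : Ω → Bool)) ∈ V := by
      apply hG
      intro α hα
      have := h α hα
      unfold i1 i2 at this
      rw [P.w_idx, P.w_idx, P.w_idx, P.w_idx] at this
      exact this
    have h3 : (⟨d', hd'⟩ : D) ∈ ({⟨d, hd⟩} : Set D) := by
      rw [← hUeq]; exact h2
    exact congrArg Subtype.val (Set.mem_singleton_iff.mp h3)
  choose! G hG using hsep
  choose s hs using (exists_gt_omega (Ω := Ω))
  by_cases hcase : ∀ δ : Ω, ∃ d ∈ D, δ ≤ P.i1 d ∧ δ ≤ P.i2 d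
  · choose d hdD hd1 hd2 using hcase
    obtain ⟨ξ, η, hlt, h⟩ := P.pairs (fun ξ => P.i1 (d ξ)) (fun ξ => P.i2 (d ξ))
      (fun ξ => ⟨hd1 ξ, hd2 ξ, P.i_ne _⟩) (fun ξ => G (d ξ))
    have := hG (d ξ) (hdD ξ) (d η) (hdD η) h
    simp only [this] at hlt
    exact lt_irrefl _ hlt
  · push Not at hcase
    obtain ⟨δ0, hδ0⟩ := hcase
    -- D is a countable union of fibres
    have hcover : D ⊆ (⋃ γ ∈ Set.Iio δ0, {d ∈ D | P.i1 d = γ}) ∪
        (⋃ γ ∈ Set.Iio δ0, {d ∈ D | P.i2 d = γ}) := by
      intro d hd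
      by_cases h : δ0 ≤ P.i1 d
      · right
        exact Set.mem_biUnion (x := P.i2 d) (hδ0 d hd h) ⟨hd, rfl⟩
      · left
        exact Set.mem_biUnion (x := P.i1 d) (not_le.mp h) ⟨hd, rfl⟩
    have hfib : (∃ γ, ¬ {d ∈ D | P.i1 d = γ}.Countable) ∨
        (∃ γ, ¬ {d ∈ D | P.i2 d = γ}.Countable) := by
      by_contra hcon
      push Not at hcon
      apply hunc
      refine Set.Countable.mono hcover (Set.Countable.union ?_ ?_)
      · exact (countable_Iio δ0).biUnion (fun γ _ => hcon.1 γ)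
      · exact (countable_Iio δ0).biUnion (fun γ _ => hcon.2 γ)
    rcases hfib with ⟨γ, hγ⟩ | ⟨γ, hγ⟩
    · have hunb : ∀ ξ : Ω, ∃ d ∈ {d ∈ D | P.i1 d = γ}, ξ ≤ P.i2 d := by
        intro ξ
        by_contra hcon
        push Not at hcon
        apply hγ
        refine Set.MapsTo.countable_of_injOn (f := P.i2) (t := Set.Iio ξ) (fun d hd => hcon d hd)
          ?_ (countable_Iio ξ)
        intro p hp q hq hpq
        exact P.i_inj (hp.2.trans hq.2.symm) hpq
      choose d hdD hd2 using hunb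
      obtain ⟨ξ, η, hlt, h⟩ := P.pairs (fun ξ => P.i2 (d ξ)) (fun ξ => s (P.i2 (d ξ)))
        (fun ξ => ⟨hd2 ξ, (hd2 ξ).trans (hs _).le, (hs _).ne⟩) (fun ξ => G (d ξ))
      have := hG (d ξ) (hdD ξ).1 (d η) (hdD η).1 (by
        intro α hα
        refine ⟨?_, (h α hα).1⟩
        rw [(hdD ξ).2, (hdD η).2])
      simp only [this] at hlt
      exact lt_irrefl _ hlt
    · have hunb : ∀ ξ : Ω, ∃ d ∈ {d ∈ D | P.i2 d = γ}, ξ ≤ P.i1 d := by
        intro ξ
        by_contra hcon
        push Not at hcon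
        apply hγ
        refine Set.MapsTo.countable_of_injOn (f := P.i1) (t := Set.Iio ξ) (fun d hd => hcon d hd)
          ?_ (countable_Iio ξ)
        intro p hp q hq hpq
        exact P.i_inj hpq (hp.2.trans hq.2.symm)
      choose d hdD hd2 using hunb
      obtain ⟨ξ, η, hlt, h⟩ := P.pairs (fun ξ => P.i1 (d ξ)) (fun ξ => s (P.i1 (d ξ)))
        (fun ξ => ⟨hd2 ξ, (hd2 ξ).trans (hs _).le, (hs _).ne⟩) (fun ξ => G (d ξ))
      have := hG (d ξ) (hdD ξ).1 (d η) (hdD η).1 (by
        intro α hα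
        refine ⟨(h α hα).1, ?_⟩
        rw [(hdD ξ).2, (hdD η).2])
      simp only [this] at hlt
      exact lt_irrefl _ hlt

theorem discretelySigmaCompact : DiscretelySigmaCompact (Codiagonal P.X) := by
  intro D hD
  have hDc := P.discrete_countable D hD
  apply isSigmaCompact_of_countable'
  obtain ⟨δ0, hδ0⟩ := exists_strict_bound ((hDc.image P.i1).union (hDc.image P.i2))
  have hclosed : IsClosed {p : Codiagonal P.X | p.1.1 ∈ P.Z δ0 ∧ p.1.2 ∈ P.Z δ0} := by
    refine IsClosed.inter ?_ ?_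
    · exact (P.isClosed_Z δ0).preimage (continuous_fst.comp continuous_subtype_val)
    · exact (P.isClosed_Z δ0).preimage (continuous_snd.comp continuous_subtype_val)
  have hsub : closure D ⊆ {p : Codiagonal P.X | p.1.1 ∈ P.Z δ0 ∧ p.1.2 ∈ P.Z δ0} := by
    apply closure_minimal _ hclosed
    intro d hd
    exact ⟨P.mem_Z (hδ0 _ (Or.inl ⟨d, hd, rfl⟩)), P.mem_Z (hδ0 _ (Or.inr ⟨d, hd, rfl⟩))⟩
  refine Set.Countable.mono hsub ?_
  refine Set.MapsTo.countable_of_injOn (f := fun p : Codiagonal P.X => p.1)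
    (t := (P.Z δ0) ×ˢ (P.Z δ0)) (fun p hp => hp) ?_ ((P.countable_Z δ0).prod (P.countable_Z δ0))
  intro p _ q _ h
  exact Subtype.ext h

end Params

end

/-! ### Existence of the parameters -/

/-- The standard well order of type `ω₁`. -/
abbrev Om : Type := (Cardinal.aleph 1).ord.ToType

instance : IsOmega1 Om where
  wf := inferInstance
  countable_Iio a := by
    have h := Cardinal.mk_Iio_toType_ord_lt a
    rw [← Set.countable_coe_iff, ← Cardinal.mk_le_aleph0_iff]
    have : Cardinal.aleph 1 = Order.succ Cardinal.aleph0 := by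
      rw [← Cardinal.aleph_zero, Cardinal.succ_aleph, zero_add]
    exact Order.lt_succ_iff.mp (h.trans_eq this)
  unc := by
    rw [← Cardinal.aleph0_lt_mk_iff, Cardinal.mk_ord_toType]
    exact Cardinal.aleph0_lt_aleph_one

theorem exists_params : Nonempty (Params Om) := by
  classical
  obtain ⟨W⟩ := exists_ladder (Ω := Om)
  have hcard : Cardinal.mk Om = Cardinal.aleph 1 := Cardinal.mk_ord_toType _
  -- distinct reals
  have hr : Nonempty (Om ↪ Set.Ioo (0:ℝ) (1/2)) := by
    rw [← Cardinal.le_def, hcard, Cardinal.mk_Ioo_real (by norm_num)]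
    exact Cardinal.aleph_one_le_continuum
  obtain ⟨r⟩ := hr
  -- independent angles
  let b := Module.Basis.ofVectorSpace ℚ ℝ
  have hb : Cardinal.mk (Module.Basis.ofVectorSpaceIndex ℚ ℝ) = Cardinal.continuum := by
    rw [b.mk_eq_rank'', Real.rank_rat_real]
  have he : Nonempty (Option (Om × Bool) ↪ Module.Basis.ofVectorSpaceIndex ℚ ℝ) := by
    rw [← Cardinal.le_def, hb, Cardinal.mk_option, Cardinal.mk_prod]
    simp only [Cardinal.lift_id, Cardinal.mk_fintype, Fintype.card_bool]
    rw [hcard]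
    have h1 : Cardinal.aleph 1 * ((2:ℕ) : Cardinal) + 1 ≤ Cardinal.continuum := by
      apply Cardinal.add_le_of_le Cardinal.aleph0_le_continuum
      · apply Cardinal.mul_le_of_le Cardinal.aleph0_le_continuum
        · exact Cardinal.aleph_one_le_continuum
        · exact (Cardinal.nat_lt_continuum 2).le
      · exact_mod_cast (Cardinal.nat_lt_continuum 1).le
    exact h1
  obtain ⟨e⟩ := he
  have hind : LinearIndependent ℚ (fun o : Option (Om × Bool) => b (e o)) :=
    b.linearIndependent.comp e e.injective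
  let v0 : ℝ := b (e none)
  have hv0 : v0 ≠ 0 := hind.ne_zero none
  refine ⟨⟨W, fun α => (b (e (some (α, true))) / v0, b (e (some (α, false))) / v0), ?_,
    fun β => (r β : ℝ), fun β => (r β).2.1, fun β => (r β).2.2, ?_⟩⟩
  · intro k a ha h hne z hz
    apply hne
    -- the relation Σ h p * v_p = z * v0
    have hrel : ∑ p : Fin k × Bool, (h p : ℝ) * b (e (some (a p.1, p.2))) - z * v0 = 0 := by
      have h1 : ∀ p : Fin k × Bool, (h p : ℝ) * b (e (some (a p.1, p.2))) =
          ((h p : ℝ) * flat (fun i => (b (e (some (a i, true))) / v0,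
            b (e (some (a i, false))) / v0)) p) * v0 := by
        rintro ⟨i, c⟩
        cases c
        · simp only [flat, Bool.false_eq_true, if_false]
          field_simp
        · simp only [flat, if_true]
          field_simp
      rw [Finset.sum_congr rfl (fun p _ => h1 p), ← Finset.sum_mul, hz, sub_self]
    -- linear independence of the family indexed by Option (Fin k × Bool)
    have hinj : Function.Injective (fun o : Option (Fin k × Bool) =>
        (o.map (fun p => (a p.1, p.2)) : Option (Om × Bool))) := by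
      apply Option.map_injective
      rintro ⟨i, c⟩ ⟨j, c'⟩ hij
      simp only [Prod.mk.injEq] at hij
      rw [ha hij.1, hij.2]
    have hind2 := hind.comp _ hinj
    rw [Fintype.linearIndependent_iff] at hind2
    have := hind2 (fun o => match o with
      | none => -(z : ℚ)
      | some p => (h p : ℚ)) (by
        rw [Fintype.sum_option]
        simp only [Function.comp, Option.map_none, Option.map_some, Rat.smul_def]
        push_cast
        linarith [hrel])
    funext p
    have h2 := this (some p)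
    simpa using h2
  · intro x y hxy
    exact r.injective (Subtype.ext hxy)

/-- Main result: a counterexample in ZFC. -/
theorem main : ∃ (X : Type) (_ : TopologicalSpace X), T35Space X ∧
    DiscretelySigmaCompact (Codiagonal X) ∧ ¬ Cosmic X := by
  obtain ⟨P⟩ := exists_params
  exact ⟨P.X, inferInstance, inferInstance, P.discretelySigmaCompact, P.not_cosmic⟩

end Pool.Agent.Work.MP_bdf4c5_gt
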