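import Mathlib

/-!
Kronecker's density theorem on a finite power of the circle.
-/

namespace Pool.Agent.Work.MP_bdf4c5_gt

open Set

section

variable {κ : Type} [Fintype κ]

/-- The character of the torus with frequency vector `h`. -/
noncomputable def chr (h : κ → ℤ) : C(κ → UnitAddCircle, ℂ) :=
  ⟨fun x => ∏ k, fourier (h k) (x k), by fun_prop⟩

theorem chr_apply (h : κ → ℤ) (x : κ → UnitAddCircle) : chr h x = ∏ k, fourier (h k) (x k) := rfl

theorem chr_zero : chr (0 : κ → ℤ) = 1 := by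
  ext x
  simp [chr_apply]

theorem chr_mul (h h' : κ → ℤ) : chr (h + h') = chr h * chr h' := by
  ext x
  simp [chr_apply, Finset.prod_mul_distrib]

theorem chr_add_apply (h : κ → ℤ) (x y : κ → UnitAddCircle) :
    chr h (x + y) = chr h x * chr h y := by
  simp only [chr_apply, Pi.add_apply, ← Finset.prod_mul_distrib]
  apply Finset.prod_congr rfl
  intro k _
  simp [fourier_apply, AddCircle.toCircle_add]

theorem chr_star (h : κ → ℤ) : star (chr h) = chr (-h) := by
  ext x
  simp only [ContinuousMap.star_apply, chr_apply, Pi.neg_apply, fourier_neg, star_prod]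
  rfl

theorem chr_norm (h : κ → ℤ) (x : κ → UnitAddCircle) : ‖chr h x‖ = 1 := by
  simp only [chr_apply, norm_prod]
  apply Finset.prod_eq_one
  intro k _
  rw [fourier_apply, Circle.norm_coe]

theorem chr_nsmul (h : κ → ℤ) (x : κ → UnitAddCircle) (m : ℕ) :
    chr h (m • x) = (chr h x) ^ m := by
  induction m with
  | zero => simp [chr_apply, fourier_apply]
  | succ m ih => rw [succ_nsmul, chr_add_apply, ih, pow_succ]

/-- The algebra spanned by the characters. -/
noncomputable def chrAlg : StarSubalgebra ℂ C(κ → UnitAddCircle, ℂ) where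
  toSubalgebra := Algebra.adjoin ℂ (range chr)
  star_mem' := by
    change Algebra.adjoin ℂ (range (chr (κ := κ))) ≤ star (Algebra.adjoin ℂ (range (chr (κ := κ))))
    refine Algebra.adjoin_le ?_
    rintro - ⟨n, rfl⟩
    exact Algebra.subset_adjoin ⟨-n, (chr_star n).symm⟩

theorem chrAlg_coe :
    Subalgebra.toSubmodule (chrAlg (κ := κ)).toSubalgebra = Submodule.span ℂ (range chr) := by
  apply Algebra.adjoin_eq_span_of_subset
  refine Subset.trans ?_ Submodule.subset_span
  intro x hx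
  refine Submonoid.closure_induction (fun _ => id) ⟨0, ?_⟩ ?_ hx
  · exact chr_zero
  · rintro - - - - ⟨m, rfl⟩ ⟨n, rfl⟩
    exact ⟨m + n, chr_mul m n⟩

theorem chrAlg_separatesPoints : (chrAlg (κ := κ)).SeparatesPoints := by
  classical
  intro x y hxy
  obtain ⟨k, hk⟩ : ∃ k, x k ≠ y k := by
    by_contra hc
    push Not at hc
    exact hxy (funext hc)
  refine ⟨_, ⟨chr (Pi.single k 1), Algebra.subset_adjoin ⟨_, rfl⟩, rfl⟩, ?_⟩
  have h1 : ∀ z : κ → UnitAddCircle, chr (Pi.single k 1) z = AddCircle.toCircle (z k) := by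
    intro z
    rw [chr_apply, Finset.prod_eq_single k]
    · simp [fourier_apply]
    · intro j _ hj
      simp [Pi.single_eq_of_ne hj]
    · intro hk; exact absurd (Finset.mem_univ k) hk
  show chr (Pi.single k 1) x ≠ chr (Pi.single k 1) y
  rw [h1, h1]
  intro hc
  apply hk
  have := Subtype.coe_injective hc
  exact AddCircle.injective_toCircle one_ne_zero this

theorem chrAlg_closure : (chrAlg (κ := κ)).topologicalClosure = ⊤ :=
  ContinuousMap.starSubalgebra_topologicalClosure_eq_top_of_separatesPoints chrAlg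
    chrAlg_separatesPoints

/-- Every continuous function is uniformly approximated by trigonometric polynomials. -/
theorem exists_trig_approx (f : C(κ → UnitAddCircle, ℂ)) {ε : ℝ} (hε : 0 < ε) :
    ∃ P ∈ Submodule.span ℂ (range (chr (κ := κ))), ∀ x, ‖f x - P x‖ ≤ ε := by
  have h1 : f ∈ (chrAlg (κ := κ)).topologicalClosure := by
    rw [chrAlg_closure]; trivial
  have h2 : f ∈ closure ((chrAlg (κ := κ)) : Set C(κ → UnitAddCircle, ℂ)) := h1
  rw [Metric.mem_closure_iff] at h2
  obtain ⟨P, hP, hd⟩ := h2 ε hε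
  refine ⟨P, ?_, fun x => ?_⟩
  · rw [← chrAlg_coe]
    exact hP
  · rw [dist_eq_norm] at hd
    exact ((f - P).norm_coe_le_norm x).trans hd.le

/-- averages along the orbit do not depend on the starting point asymptotically -/
def Good (θ : κ → UnitAddCircle) (f : (κ → UnitAddCircle) → ℂ) : Prop :=
  ∀ y : κ → UnitAddCircle, ∀ ε > 0, ∃ N0 : ℕ, ∀ N ≥ N0, ∀ x : κ → UnitAddCircle,
    ‖∑ m ∈ Finset.range N, (f (x + y + m • θ) - f (x + m • θ))‖ ≤ ε * N

theorem good_chr (θ : κ → UnitAddCircle) (hθ : ∀ h : κ → ℤ, h ≠ 0 → chr h θ ≠ 1) (h : κ → ℤ) :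
    Good θ (chr h) := by
  intro y ε hε
  by_cases h0 : h = 0
  · subst h0
    refine ⟨0, fun N _ x => ?_⟩
    simp only [chr_zero, ContinuousMap.one_apply, sub_self, Finset.sum_const_zero, norm_zero]
    positivity
  · have hz := hθ h h0
    have hz' : chr h θ - 1 ≠ 0 := sub_ne_zero.mpr hz
    have hpos : 0 < ‖chr h θ - 1‖ := norm_pos_iff.mpr hz'
    obtain ⟨N0, hN0⟩ := exists_nat_ge (4 / (‖chr h θ - 1‖ * ε))
    refine ⟨N0, fun N hN x => ?_⟩
    have e1 : ∑ m ∈ Finset.range N, (chr h (x + y + m • θ) - chr h (x + m • θ)) =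
        (chr h y - 1) * chr h x * ((chr h θ ^ N - 1) / (chr h θ - 1)) := by
      rw [← geom_sum_eq hz, Finset.mul_sum]
      apply Finset.sum_congr rfl
      intro m _
      rw [chr_add_apply, chr_add_apply, chr_add_apply, chr_nsmul]
      ring
    rw [e1, norm_mul, norm_mul, norm_div, chr_norm]
    have e2 : ‖chr h y - 1‖ ≤ 2 := by
      calc ‖chr h y - 1‖ ≤ ‖chr h y‖ + ‖(1:ℂ)‖ := norm_sub_le _ _
        _ = 2 := by rw [chr_norm]; norm_num
    have e3 : ‖chr h θ ^ N - 1‖ ≤ 2 := by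
      calc ‖chr h θ ^ N - 1‖ ≤ ‖chr h θ ^ N‖ + ‖(1:ℂ)‖ := norm_sub_le _ _
        _ = 2 := by rw [norm_pow, chr_norm]; norm_num
    have e4 : (4 / (‖chr h θ - 1‖ * ε)) ≤ N := hN0.trans (by exact_mod_cast hN)
    rw [div_le_iff₀ (by positivity)] at e4
    calc ‖chr h y - 1‖ * 1 * (‖chr h θ ^ N - 1‖ / ‖chr h θ - 1‖)
        ≤ 2 * 1 * (2 / ‖chr h θ - 1‖) := by gcongr
      _ = 4 / ‖chr h θ - 1‖ := by ring
      _ ≤ ε * N := by
          rw [div_le_iff₀ hpos]
          nlinarith

theorem good_span (θ : κ → UnitAddCircle) (hθ : ∀ h : κ → ℤ, h ≠ 0 → chr h θ ≠ 1)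
    (P : C(κ → UnitAddCircle, ℂ)) (hP : P ∈ Submodule.span ℂ (range (chr (κ := κ)))) :
    Good θ P := by
  induction hP using Submodule.span_induction with
  | mem x hx =>
    obtain ⟨h, rfl⟩ := hx
    exact good_chr θ hθ h
  | zero =>
    intro y ε hε
    refine ⟨0, fun N _ x => ?_⟩
    simp only [ContinuousMap.zero_apply, sub_self, Finset.sum_const_zero, norm_zero]
    positivity
  | add f g _ _ hf hg =>
    intro y ε hε
    obtain ⟨N1, h1⟩ := hf y (ε / 2) (by positivity)
    obtain ⟨N2, h2⟩ := hg y (ε / 2) (by positivity)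
    refine ⟨max N1 N2, fun N hN x => ?_⟩
    have e1 : ∑ m ∈ Finset.range N, ((f + g) (x + y + m • θ) - (f + g) (x + m • θ)) =
        ∑ m ∈ Finset.range N, (f (x + y + m • θ) - f (x + m • θ)) +
        ∑ m ∈ Finset.range N, (g (x + y + m • θ) - g (x + m • θ)) := by
      rw [← Finset.sum_add_distrib]
      apply Finset.sum_congr rfl
      intro m _
      simp only [ContinuousMap.add_apply]
      ring
    rw [e1]
    calc _ ≤ _ := norm_add_le _ _
      _ ≤ ε / 2 * N + ε / 2 * N := add_le_add (h1 N (le_trans (le_max_left _ _) hN) x)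
          (h2 N (le_trans (le_max_right _ _) hN) x)
      _ = ε * N := by ring
  | smul c f _ hf =>
    intro y ε hε
    obtain ⟨N1, h1⟩ := hf y (ε / (‖c‖ + 1)) (by positivity)
    refine ⟨N1, fun N hN x => ?_⟩
    have e1 : ∑ m ∈ Finset.range N, ((c • f) (x + y + m • θ) - (c • f) (x + m • θ)) =
        c * ∑ m ∈ Finset.range N, (f (x + y + m • θ) - f (x + m • θ)) := by
      rw [Finset.mul_sum]
      apply Finset.sum_congr rfl
      intro m _
      simp only [ContinuousMap.smul_apply, smul_eq_mul]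
      ring
    rw [e1, norm_mul]
    calc ‖c‖ * _ ≤ ‖c‖ * (ε / (‖c‖ + 1) * N) := by
          gcongr
          exact h1 N hN x
      _ ≤ (‖c‖ + 1) * (ε / (‖c‖ + 1) * N) := by
          gcongr
          linarith
      _ = ε * N := by field_simp

theorem good_all (θ : κ → UnitAddCircle) (hθ : ∀ h : κ → ℤ, h ≠ 0 → chr h θ ≠ 1)
    (f : C(κ → UnitAddCircle, ℂ)) : Good θ f := by
  intro y ε hε
  obtain ⟨P, hP, hfP⟩ := exists_trig_approx f (ε := ε / 3) (by positivity)
  obtain ⟨N0, hN0⟩ := good_span θ hθ P hP y (ε / 3) (by positivity)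
  refine ⟨N0, fun N hN x => ?_⟩
  have e1 : ∑ m ∈ Finset.range N, (f (x + y + m • θ) - f (x + m • θ)) =
      ∑ m ∈ Finset.range N, (P (x + y + m • θ) - P (x + m • θ)) +
      ∑ m ∈ Finset.range N, ((f (x + y + m • θ) - P (x + y + m • θ)) -
        (f (x + m • θ) - P (x + m • θ))) := by
    rw [← Finset.sum_add_distrib]
    apply Finset.sum_congr rfl
    intro m _
    ring
  rw [e1]
  have e2 : ‖∑ m ∈ Finset.range N, ((f (x + y + m • θ) - P (x + y + m • θ)) -
        (f (x + m • θ) - P (x + m • θ)))‖ ≤ ∑ m ∈ Finset.range N, (ε / 3 + ε / 3) := by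
    apply norm_sum_le_of_le
    intro m _
    exact (norm_sub_le _ _).trans (add_le_add (hfP _) (hfP _))
  rw [Finset.sum_const, Finset.card_range, nsmul_eq_mul] at e2
  calc _ ≤ _ := norm_add_le _ _
    _ ≤ ε / 3 * N + N * (ε / 3 + ε / 3) := add_le_add (hN0 N hN x) e2
    _ = ε * N := by ring

/-- Kronecker's theorem: every forward orbit meets every nonempty open set. -/
theorem kronecker (θ : κ → UnitAddCircle) (hθ : ∀ h : κ → ℤ, h ≠ 0 → chr h θ ≠ 1)
    (x0 : κ → UnitAddCircle) (U : Set (κ → UnitAddCircle)) (hU : IsOpen U) (hne : U.Nonempty) :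
    ∃ m : ℕ, x0 + m • θ ∈ U := by
  by_contra hcon
  push Not at hcon
  obtain ⟨y0, hy0⟩ := hne
  -- Urysohn function
  obtain ⟨f, hf0, hf1, hf⟩ := exists_continuous_zero_one_of_isClosed
    (s := Uᶜ) (t := {y0}) hU.isClosed_compl isClosed_singleton
    (by rw [Set.disjoint_singleton_right]; simpa using hy0)
  let V : Set (κ → UnitAddCircle) := {x | 1 / 2 < f x}
  have hV : IsOpen V := isOpen_lt continuous_const f.continuous
  -- finite cover by translates
  obtain ⟨s, hs⟩ := isCompact_univ.elim_finite_subcover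
    (fun g : κ → UnitAddCircle => (fun x => x + g) ⁻¹' V)
    (fun g => hV.preimage (by fun_prop)) (by
      intro x _
      refine Set.mem_iUnion.mpr ⟨y0 - x, ?_⟩
      simp only [Set.mem_preimage, add_sub_cancel]
      show 1 / 2 < f y0
      rw [hf1 (Set.mem_singleton y0)]
      norm_num)
  have hsum : ∀ x, (1 / 2 : ℝ) ≤ ∑ g ∈ s, f (x + g) := by
    intro x
    obtain ⟨g, hg⟩ := Set.mem_iUnion.mp (hs (Set.mem_univ x))
    obtain ⟨hgs, hg⟩ := Set.mem_iUnion.mp hg
    calc (1/2 : ℝ) ≤ f (x + g) := hg.le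
      _ ≤ ∑ g ∈ s, f (x + g) := Finset.single_le_sum (f := fun g => f (x + g))
          (fun g _ => (hf (x + g)).1) hgs
  let F : C(κ → UnitAddCircle, ℂ) := ⟨fun x => (f x : ℂ), by fun_prop⟩
  have hgood := good_all θ hθ F
  have hε : (0:ℝ) < 1 / (4 * (s.card + 1)) := by positivity
  have hN : ∀ g ∈ s, ∃ N0 : ℕ, ∀ N ≥ N0, ∀ x : κ → UnitAddCircle,
      ‖∑ m ∈ Finset.range N, (F (x + g + m • θ) - F (x + m • θ))‖ ≤
        1 / (4 * (s.card + 1)) * N := fun g _ => hgood g _ hε
  choose! N0 hN0 using hN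
  let N := s.sup N0 + 1
  have hNle : ∀ g ∈ s, N0 g ≤ N := fun g hg => (Finset.le_sup hg).trans (Nat.le_succ _)
  have hreal : ∀ g ∈ s, ∑ m ∈ Finset.range N, f (x0 + m • θ + g) ≤ 1 / (4 * (s.card + 1)) * N := by
    intro g hg
    have h1 := hN0 g hg N (hNle g hg) x0
    have h2 : ∑ m ∈ Finset.range N, (F (x0 + g + m • θ) - F (x0 + m • θ)) =
        ((∑ m ∈ Finset.range N, f (x0 + m • θ + g) : ℝ) : ℂ) := by
      push_cast
      apply Finset.sum_congr rfl
      intro m _
      have : f (x0 + m • θ) = 0 := hf0 (by simpa using hcon m)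
      show ((f (x0 + g + m • θ) : ℝ) : ℂ) - ((f (x0 + m • θ) : ℝ) : ℂ) = _
      rw [this, add_right_comm]
      simp
    rw [h2, Complex.norm_real] at h1
    exact (le_abs_self _).trans h1
  have h3 : (N : ℝ) * (1 / 2) ≤ ∑ g ∈ s, ∑ m ∈ Finset.range N, f (x0 + m • θ + g) := by
    rw [Finset.sum_comm]
    calc (N : ℝ) * (1/2) = ∑ m ∈ Finset.range N, (1/2 : ℝ) := by simp
      _ ≤ _ := Finset.sum_le_sum (fun m _ => hsum _)
  have h4 : ∑ g ∈ s, ∑ m ∈ Finset.range N, f (x0 + m • θ + g) ≤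
      s.card * (1 / (4 * (s.card + 1)) * N) := by
    calc _ ≤ ∑ g ∈ s, (1 / (4 * ((s.card : ℝ) + 1)) * N) := Finset.sum_le_sum hreal
      _ = _ := by simp
  have hNpos : (0:ℝ) < N := by
    have : 0 < N := Nat.succ_pos _
    exact_mod_cast this
  have h5 := h3.trans h4
  have h6 : (s.card : ℝ) * (1 / (4 * (s.card + 1)) * N) ≤ N * (1 / 4) := by
    have : (s.card : ℝ) * (1 / (4 * (s.card + 1)) * N) = N * ((s.card : ℝ) / (4 * (s.card + 1))) := by
      ring
    rw [this]
    apply mul_le_mul_of_nonneg_left _ hNpos.le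
    rw [div_le_iff₀ (by positivity)]
    nlinarith
  nlinarith

/-- The character condition in terms of real representatives. -/
theorem chr_ne_one (t : κ → ℝ) (ht : ∀ h : κ → ℤ, h ≠ 0 → ∀ z : ℤ, ∑ k, (h k : ℝ) * t k ≠ z)
    (h : κ → ℤ) (hne : h ≠ 0) : chr h (fun k => ((t k : ℝ) : UnitAddCircle)) ≠ 1 := by
  intro hc
  rw [chr_apply] at hc
  simp only [fourier_coe_apply, Complex.ofReal_one, div_one] at hc
  rw [← Complex.exp_sum, Complex.exp_eq_one_iff] at hc
  obtain ⟨n, hn⟩ := hc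
  apply ht h hne n
  have h1 : ∑ k, 2 * (Real.pi : ℂ) * Complex.I * (h k : ℂ) * (t k : ℂ) =
      (2 * (Real.pi : ℂ) * Complex.I) * ((∑ k, (h k : ℝ) * t k : ℝ) : ℂ) := by
    push_cast
    rw [Finset.mul_sum]
    apply Finset.sum_congr rfl
    intro k _
    ring
  rw [h1, mul_comm] at hn
  have h2 : (2 * (Real.pi : ℂ) * Complex.I) ≠ 0 := Complex.two_pi_I_ne_zero
  have h3 := mul_right_cancel₀ h2 hn
  exact_mod_cast h3

end

end Pool.Agent.Work.MP_bdf4c5_gt
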