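import Pool.Agent.Work.MP_bdf4c5_gt.Signs

/-!
Moore's oscillation theorem for the pair (lower trace, `ρ₁`).
-/

set_option linter.unusedSectionVars false

namespace Pool.Agent.Work.MP_bdf4c5_gt

open Set

section

variable {Ω : Type} [LinearOrder Ω] [IsOmega1 Ω]

theorem exists_bound_lt {δ : Ω} (h : ∃ ξ, ξ < δ) {s : Set Ω} (hs : s.Finite)
    (hlt : ∀ x ∈ s, x < δ) : ∃ ν < δ, ∀ x ∈ s, x ≤ ν := by
  rcases s.eq_empty_or_nonempty with rfl | hne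
  · obtain ⟨ξ, hξ⟩ := h
    exact ⟨ξ, hξ, by simp⟩
  · obtain ⟨m, hm1, hm2⟩ := Set.exists_max_image s id hs hne
    exact ⟨m, hlt m hm1, hm2⟩

namespace Ladder

variable (W : Ladder Ω) {ι κ : Type} [Finite ι] [Finite κ]

/-- `e β ξ = ρ₁(ξ, β)` -/
noncomputable def e (β ξ : Ω) : ℕ := W.rho ξ β

/-- The oscillation function. -/
noncomputable def osc (α β : Ω) : ℕ := rs true (signs (W.e α) (W.e β) (W.L α β))

theorem e_finite (β : Ω) (n : ℕ) : {ξ | ξ < β ∧ W.e β ξ ≤ n}.Finite := W.rho_finite_to_one β n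

theorem exists_agree {δ : Ω} (hδ : ∃ ξ, ξ < δ) (a : ι → Ω) (ha : ∀ i, δ ≤ a i)
    (F : Finset Ω) (hF : ∀ x ∈ F, x < δ) :
    ∃ ν < δ, (∀ x ∈ F, x ≤ ν) ∧ ∀ i x, ν < x → x < δ → W.e (a i) x = W.e δ x := by
  have hfin : ((F : Set Ω) ∪ ⋃ i, {x | x < δ ∧ W.rho x δ ≠ W.rho x (a i)}).Finite := by
    refine (F.finite_toSet).union (Set.finite_iUnion (fun i => ?_))
    exact W.rho_coherent (a i) δ (ha i)
  obtain ⟨ν, h1, h2⟩ := exists_bound_lt hδ hfin (by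
    rintro x (hx | hx)
    · exact hF x hx
    · obtain ⟨i, hi⟩ := Set.mem_iUnion.mp hx
      exact hi.1)
  refine ⟨ν, h1, fun x hx => h2 x (Or.inl hx), fun i x hx1 hx2 => ?_⟩
  by_contra hc
  exact absurd (h2 x (Or.inr (Set.mem_iUnion.mpr ⟨i, hx2, fun h => hc h.symm⟩)))
    (not_le.mpr hx1)

theorem uniformize {B : Set Ω} (hB : Stat B) (a : Ω → ι → Ω) (b : Ω → κ → Ω)
    (F : Ω → Finset Ω) (hF : ∀ δ ∈ B, ∀ x ∈ F δ, x < δ) :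
    ∃ B' ⊆ B, Stat B' ∧ ∃ F0 : Finset Ω, (∀ δ ∈ B', F δ = F0) ∧
      ∀ δ ∈ B', ∀ δ' ∈ B', (∀ i, ∀ x ∈ F0, W.e (a δ i) x = W.e (a δ' i) x) ∧
        (∀ j, ∀ x ∈ F0, W.e (b δ j) x = W.e (b δ' j) x) ∧
        (∀ j, ∀ x ∈ F0, x ∈ W.L δ (b δ j) ↔ x ∈ W.L δ' (b δ' j)) := by
  classical
  obtain ⟨F0, hF0⟩ := hB.fodor_finset F hF
  obtain ⟨p, hp⟩ := hF0.countable_fiber' (fun δ =>
    (((fun i (x : F0) => W.e (a δ i) x), (fun j (x : F0) => W.e (b δ j) x),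
      (fun j (x : F0) => decide ((x : Ω) ∈ W.L δ (b δ j)))) :
      (ι → F0 → ℕ) × (κ → F0 → ℕ) × (κ → F0 → Bool)))
  refine ⟨_, ?_, hp, F0, fun δ hδ => hδ.1.2, ?_⟩
  · rintro δ ⟨⟨h, -⟩, -⟩; exact h
  · rintro δ ⟨-, h1⟩ δ' ⟨-, h2⟩
    have h3 := h1.trans h2.symm
    rw [Prod.ext_iff, Prod.ext_iff] at h3
    obtain ⟨h4, h5, h6⟩ := h3
    refine ⟨fun i x hx => ?_, fun j x hx => ?_, fun j x hx => ?_⟩
    · exact congrFun (congrFun h4 i) ⟨x, hx⟩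
    · exact congrFun (congrFun h5 j) ⟨x, hx⟩
    · have := congrFun (congrFun h6 j) ⟨x, hx⟩
      simpa using this

/-- The step in which the new elements carry the relation `R`. -/
def Step (R : ℕ → ℕ → Prop) (A : Set (ι → Ω)) (B : Set (κ → Ω)) (δ : Ω) : Prop :=
  ∀ a ∈ A, (∀ i, δ ≤ a i) → ∀ b ∈ B, (∀ j, δ ≤ b j) → ∀ F : Finset Ω, (∀ x ∈ F, x < δ) →
    (∀ j, ∀ x ∈ W.L δ (b j), x ∈ F) →
    ∃ a' ∈ A, (∀ i, δ ≤ a' i) ∧ ∃ b' ∈ B, (∀ j, δ ≤ b' j) ∧ ∃ L' : Finset Ω, L'.Nonempty ∧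
      (∀ x ∈ L', x < δ) ∧ (∀ x ∈ L', ∀ y ∈ F, y < x) ∧
      (∀ i, ∀ x ∈ F, W.e (a' i) x = W.e (a i) x) ∧
      (∀ j, ∀ x ∈ F, W.e (b' j) x = W.e (b j) x) ∧
      (∀ j, W.L δ (b' j) = W.L δ (b j) ∪ L') ∧
      (∀ i j, ∀ x ∈ L', R (W.e (b' j) x) (W.e (a' i) x))

/-- The common concatenation argument. -/
theorem concat_aux {δ δ' : Ω} (hlt : δ < δ') (b b' : κ → Ω) (F : Finset Ω)
    (hF : ∀ x ∈ F, x < δ) (hb' : ∀ j, δ' ≤ b' j)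
    (hL : ∀ j, ∀ x ∈ W.L δ (b j), x ∈ F)
    (hL' : ∀ j, ∀ x ∈ W.L δ' (b' j), x ∈ F)
    (hLL : ∀ j, ∀ x ∈ F, x ∈ W.L δ (b j) ↔ x ∈ W.L δ' (b' j))
    (hhigh : ∀ x ∈ W.L δ δ', ∀ y ∈ F, y < x) :
    ∀ j, W.L δ (b' j) = W.L δ (b j) ∪ W.L δ δ' := by
  intro j
  rw [W.L_concat hlt.le (hb' j) (fun x hx => hF x (hL' j x hx))
    (fun x hx y hy => hhigh y hy x (hL' j x hx))]
  have : W.L δ' (b' j) = W.L δ (b j) := by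
    ext x
    constructor
    · intro hx; exact (hLL j x (hL' j x hx)).mpr hx
    · intro hx; exact (hLL j x (hL j x hx)).mp hx
  rw [this, Finset.union_comm]

theorem eqStep (A : Set (ι → Ω)) (B : Set (κ → Ω)) :
    ¬ Stat {δ | ¬ W.Step (fun m n => m = n) A B δ} := by
  classical
  intro hbad
  have hbad := hbad.inter_lim
  have h1 : ∀ δ ∈ {δ ∈ {δ | ¬ W.Step (fun m n => m = n) A B δ} | IsLim δ},
      ∃ (a : ι → Ω) (b : κ → Ω) (F : Finset Ω) (ν ζ : Ω), a ∈ A ∧ (∀ i, δ ≤ a i) ∧ b ∈ B ∧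
        (∀ j, δ ≤ b j) ∧ (∀ x ∈ F, x < δ) ∧ (∀ j, ∀ x ∈ W.L δ (b j), x ∈ F) ∧
        (∀ x ∈ F, x ≤ ν) ∧ (∀ i x, ν < x → x < δ → W.e (a i) x = W.e δ x) ∧
        (∀ j x, ν < x → x < δ → W.e (b j) x = W.e δ x) ∧ ζ < δ ∧
        (∀ ξ, ζ < ξ → ξ < δ → (W.L ξ δ).Nonempty ∧ ∀ x ∈ W.L ξ δ, ν < x) ∧
        ¬ (∃ a' ∈ A, (∀ i, δ ≤ a' i) ∧ ∃ b' ∈ B, (∀ j, δ ≤ b' j) ∧
          ∃ L' : Finset Ω, L'.Nonempty ∧
          (∀ x ∈ L', x < δ) ∧ (∀ x ∈ L', ∀ y ∈ F, y < x) ∧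
          (∀ i, ∀ x ∈ F, W.e (a' i) x = W.e (a i) x) ∧
          (∀ j, ∀ x ∈ F, W.e (b' j) x = W.e (b j) x) ∧
          (∀ j, W.L δ (b' j) = W.L δ (b j) ∪ L') ∧
          (∀ i j, ∀ x ∈ L', W.e (b' j) x = W.e (a' i) x)) := by
    rintro δ ⟨h1, h2⟩
    simp only [Set.mem_ofPred_eq, Step] at h1
    push Not at h1
    obtain ⟨a, ha1, ha2, b, hb1, hb2, F, hF1, hF2, hneg⟩ := h1
    obtain ⟨ν1, hν1, hFν, hν1a⟩ := W.exists_agree h2.1 a ha2 F hF1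
    obtain ⟨ν2, hν2, -, hν2b⟩ := W.exists_agree h2.1 b hb2 F hF1
    obtain ⟨ζ, hζ1, hζ2⟩ := W.L_near_limit h2 (max_lt hν1 hν2)
    refine ⟨a, b, F, max ν1 ν2, ζ, ha1, ha2, hb1, hb2, hF1, hF2,
      fun x hx => (hFν x hx).trans (le_max_left _ _),
      fun i x hx => hν1a i x (lt_of_le_of_lt (le_max_left _ _) hx),
      fun j x hx => hν2b j x (lt_of_le_of_lt (le_max_right _ _) hx), hζ1, hζ2, ?_⟩
    rintro ⟨a', c1, c2, b', c3, c4, L', c5, c6, c7, c8, c9, c10, c11⟩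
    obtain ⟨i, j, x, d1, d2⟩ := hneg a' c1 c2 b' c3 c4 L' c5 c6 c7 c8 c9 c10
    exact d2 (c11 i j x d1)
  choose! a b F ν ζ h1 using h1
  obtain ⟨ζ0, hζ0⟩ := hbad.fodor ζ (fun δ hδ => (h1 δ hδ).2.2.2.2.2.2.2.2.2.1)
  obtain ⟨B', hB'sub, hB'stat, F0, hF0, hdata⟩ := W.uniformize hζ0 a b F
    (fun δ hδ => (h1 δ hδ.1).2.2.2.2.1)
  obtain ⟨δ, hδ, hδζ⟩ := hB'stat.exists_gt ζ0
  obtain ⟨δ', hδ', hδδ'⟩ := hB'stat.exists_gt δ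
  obtain ⟨ha1, ha2, hb1, hb2, hF1, hF2, hF3, hν1, hν2, hζ1, hζ2, hneg⟩ := h1 δ (hB'sub hδ).1
  obtain ⟨ha1', ha2', hb1', hb2', hF1', hF2', hF3', hν1', hν2', hζ1', hζ2', -⟩ :=
    h1 δ' (hB'sub hδ').1
  obtain ⟨e1, e2, e3⟩ := hdata δ' hδ' δ hδ
  have hFδ := hF0 δ hδ
  have hFδ' := hF0 δ' hδ'
  have hζδ' : ζ δ' = ζ0 := (hB'sub hδ').2
  obtain ⟨hne, hhigh⟩ := hζ2' δ (by rw [hζδ']; exact hδζ) hδδ'
  rw [hFδ] at hF1 hF2 hneg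
  rw [hFδ'] at hF2' hF3'
  apply hneg
  refine ⟨a δ', ha1', fun i => hδδ'.le.trans (ha2' i), b δ', hb1',
    fun j => hδδ'.le.trans (hb2' j), W.L δ δ', hne, W.L_lt, ?_, e1, e2, ?_, ?_⟩
  · intro x hx y hy
    exact lt_of_le_of_lt (hF3' y hy) (hhigh x hx)
  · apply W.concat_aux hδδ' (b δ) (b δ') F0 hF1 hb2' hF2 hF2'
    · intro j x hx; exact (e3 j x hx).symm
    · intro x hx y hy
      exact lt_of_le_of_lt (hF3' y hy) (hhigh x hx)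
  · intro i j x hx
    have hxδ' : x < δ' := lt_trans (W.L_lt x hx) hδδ'
    rw [hν1' i x (hhigh x hx) hxδ', hν2' j x (hhigh x hx) hxδ']

theorem gtStep (A : Set (ι → Ω)) (B : Set (κ → Ω)) :
    ¬ Stat {δ | ¬ W.Step (fun m n => m < n) A B δ} := by
  classical
  intro hbad
  have hbad := hbad.inter_lim
  have h1 : ∀ δ ∈ {δ ∈ {δ | ¬ W.Step (fun m n => m < n) A B δ} | IsLim δ},
      ∃ (a : ι → Ω) (b : κ → Ω) (F : Finset Ω) (ν : Ω), a ∈ A ∧ (∀ i, δ ≤ a i) ∧ b ∈ B ∧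
        (∀ j, δ ≤ b j) ∧ (∀ x ∈ F, x < δ) ∧ (∀ j, ∀ x ∈ W.L δ (b j), x ∈ F) ∧
        (∀ x ∈ F, x ≤ ν) ∧ ν < δ ∧
        (∀ j x, ν < x → x < δ → W.e (b j) x = W.e δ x) ∧
        ¬ (∃ a' ∈ A, (∀ i, δ ≤ a' i) ∧ ∃ b' ∈ B, (∀ j, δ ≤ b' j) ∧
          ∃ L' : Finset Ω, L'.Nonempty ∧
          (∀ x ∈ L', x < δ) ∧ (∀ x ∈ L', ∀ y ∈ F, y < x) ∧
          (∀ i, ∀ x ∈ F, W.e (a' i) x = W.e (a i) x) ∧
          (∀ j, ∀ x ∈ F, W.e (b' j) x = W.e (b j) x) ∧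
          (∀ j, W.L δ (b' j) = W.L δ (b j) ∪ L') ∧
          (∀ i j, ∀ x ∈ L', W.e (b' j) x < W.e (a' i) x)) := by
    rintro δ ⟨h1, h2⟩
    simp only [Set.mem_ofPred_eq, Step] at h1
    push Not at h1
    obtain ⟨a, ha1, ha2, b, hb1, hb2, F, hF1, hF2, hneg⟩ := h1
    obtain ⟨ν2, hν2, hFν, hν2b⟩ := W.exists_agree h2.1 b hb2 F hF1
    refine ⟨a, b, F, ν2, ha1, ha2, hb1, hb2, hF1, hF2, hFν, hν2, hν2b, ?_⟩
    rintro ⟨a', c1, c2, b', c3, c4, L', c5, c6, c7, c8, c9, c10, c11⟩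
    obtain ⟨i, j, x, d1, d2⟩ := hneg a' c1 c2 b' c3 c4 L' c5 c6 c7 c8 c9 c10
    exact absurd (c11 i j x d1) (not_lt.mpr d2)
  choose! a b F ν h1 using h1
  obtain ⟨ν0, hν0⟩ := hbad.fodor ν (fun δ hδ => (h1 δ hδ).2.2.2.2.2.2.2.1)
  obtain ⟨B', hB'sub, hB'stat, F0, hF0, hdata⟩ := W.uniformize hν0 a b F
    (fun δ hδ => (h1 δ hδ.1).2.2.2.2.1)
  -- reference data
  obtain ⟨δr, hδr, -⟩ := hB'stat.exists_gt ν0
  -- key construction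
  have key : ∀ μ : Ω, ∃ (δ1 : Ω) (L' : Finset Ω) (N : ℕ), (∀ x ∈ L', μ < x ∧ x < δ1) ∧
      ∀ a' ∈ A, (∀ i, δ1 ≤ a' i) → (∀ i, ∀ x ∈ F0, W.e (a' i) x = W.e (a δr i) x) →
        ∃ i, ∃ x ∈ L', W.e (a' i) x ≤ N := by
    intro μ0
    -- work above max μ0 ν0
    let μ := max μ0 ν0
    have hS1 := hB'stat.inter_closure id μ
    have hlimS : ∀ δ ∈ {δ ∈ B' | μ < δ ∧ ∀ ξ < δ, id ξ < δ}, ∃ ζ < δ, ∀ ξ, ζ < ξ → ξ < δ →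
        (W.L ξ δ).Nonempty ∧ ∀ x ∈ W.L ξ δ, μ < x := by
      rintro δ ⟨c1, c2, -⟩
      exact W.L_near_limit (hB'sub c1).1.2 c2
    choose! ζ hζ1 hζ2 using hlimS
    obtain ⟨ζ0, hζ0⟩ := hS1.fodor ζ hζ1
    obtain ⟨δ, hδ, hδζ⟩ := hζ0.exists_gt ζ0
    obtain ⟨δ', hδ', hδδ'⟩ := hζ0.exists_gt δ
    have hδB : δ ∈ B' := hδ.1.1
    have hδB' : δ' ∈ B' := hδ'.1.1
    obtain ⟨ha1, ha2, hb1, hb2, hF1, hF2, hF3, hν1, hν2, hneg⟩ := h1 δ (hB'sub hδB).1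
    obtain ⟨ha1', ha2', hb1', hb2', hF1', hF2', hF3', hν1', hν2', -⟩ :=
      h1 δ' (hB'sub hδB').1
    obtain ⟨e1, e2, e3⟩ := hdata δ' hδB' δ hδB
    have hFδ := hF0 δ hδB
    have hFδ' := hF0 δ' hδB'
    have hζδ' : ζ δ' = ζ0 := hδ'.2
    have hνδ' : ν δ' = ν0 := (hB'sub hδB').2
    obtain ⟨hne, hhigh⟩ := hζ2 δ' hδ'.1 δ (by rw [hζδ']; exact hδζ) hδδ'
    rw [hFδ] at hF1 hF2 hneg
    rw [hFδ', hνδ'] at hF3'
    rw [hFδ'] at hF2'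
    rw [hνδ'] at hν2'
    have hhighν : ∀ x ∈ W.L δ δ', ν0 < x := fun x hx =>
      lt_of_le_of_lt (le_max_right _ _) (hhigh x hx)
    have hhighF : ∀ x ∈ W.L δ δ', ∀ y ∈ F0, y < x := fun x hx y hy =>
      lt_of_le_of_lt (hF3' y hy) (hhighν x hx)
    refine ⟨δ, W.L δ δ', (W.L δ δ').sup (fun x => W.e δ' x), ?_, ?_⟩
    · intro x hx
      exact ⟨lt_of_le_of_lt (le_max_left _ _) (hhigh x hx), W.L_lt x hx⟩
    · intro a' ha' ha'2 ha'3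
      by_contra hcon
      push Not at hcon
      apply hneg
      refine ⟨a', ha', ha'2, b δ', hb1', fun j => hδδ'.le.trans (hb2' j), W.L δ δ', hne,
        W.L_lt, hhighF, ?_, e2, ?_, ?_⟩
      · intro i x hx
        rw [ha'3 i x hx]
        exact (hdata δr hδr δ hδB).1 i x hx
      · apply W.concat_aux hδδ' (b δ) (b δ') F0 hF1 hb2' hF2 hF2'
        · intro j x hx; exact (e3 j x hx).symm
        · exact hhighF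
      · intro i j x hx
        have hxδ' : x < δ' := lt_trans (W.L_lt x hx) hδδ'
        rw [hν2' j x (hhighν x hx) hxδ']
        exact lt_of_le_of_lt (Finset.le_sup (f := fun x => W.e δ' x) hx) (hcon i x hx)
  choose D L' N hkey1 hkey2 using key
  obtain ⟨n, hn⟩ := exists_unbounded_fiber N
  -- an increasing sequence
  choose nxt hnxt1 hnxt2 using hn
  let s : ℕ → Ω := fun q => Nat.rec (nxt ν0) (fun _ y => nxt (max (D y) y)) q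
  have hs_succ : ∀ q, s (q + 1) = nxt (max (D (s q)) (s q)) := fun q => rfl
  have hsN : ∀ q, N (s q) = n := by
    intro q
    cases q with
    | zero => exact hnxt2 _
    | succ q => rw [hs_succ]; exact hnxt2 _
  have hsD : ∀ q, D (s q) < s (q + 1) := by
    intro q
    rw [hs_succ]
    exact lt_of_le_of_lt (le_max_left _ _) (hnxt1 _)
  have hsmono : StrictMono s := by
    apply strictMono_nat_of_lt_succ
    intro q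
    rw [hs_succ]
    exact lt_of_le_of_lt (le_max_right _ _) (hnxt1 _)
  obtain ⟨bd, hbd⟩ := exists_strict_bound (Set.countable_range s)
  obtain ⟨δ, hδ, hδbd⟩ := hB'stat.exists_gt bd
  obtain ⟨ha1, ha2, -⟩ := h1 δ (hB'sub hδ).1
  have hsδ : ∀ q, s q < δ := fun q => lt_trans (hbd _ ⟨q, rfl⟩) hδbd
  have hx : ∀ q, ∃ i, ∃ x ∈ L' (s q), W.e (a δ i) x ≤ n := by
    intro q
    have := hkey2 (s q) (a δ) ha1 (fun i => ((hsD q).trans (hsδ (q+1))).le.trans (ha2 i))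
      (hdata δ hδ δr hδr).1
    rw [hsN q] at this
    exact this
  choose i x hxL hxn using hx
  have hxs : ∀ q, s q < x q ∧ x q < s (q + 1) := fun q =>
    ⟨(hkey1 _ _ (hxL q)).1, lt_trans (hkey1 _ _ (hxL q)).2 (hsD q)⟩
  have hxmono : StrictMono x := by
    apply strictMono_nat_of_lt_succ
    intro q
    exact lt_trans (hxs q).2 (hxs (q+1)).1
  have hfin : (⋃ i, {ξ | ξ < a δ i ∧ W.e (a δ i) ξ ≤ n}).Finite :=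
    Set.finite_iUnion (fun i => W.e_finite (a δ i) n)
  have hmem : ∀ q, x q ∈ ⋃ i, {ξ | ξ < a δ i ∧ W.e (a δ i) ξ ≤ n} := by
    intro q
    refine Set.mem_iUnion.mpr ⟨i q, ?_, hxn q⟩
    exact lt_of_lt_of_le ((hxs q).2.trans (hsδ (q+1))) (ha2 (i q))
  exact Set.infinite_of_injective_forall_mem hxmono.injective hmem hfin

/-- Reflection of elements of `A` below `δ`. -/
def Refl (A : Set (ι → Ω)) (δ : Ω) : Prop :=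
  ∀ a ∈ A, (∀ i, δ ≤ a i) → ∀ F : Finset Ω, (∀ x ∈ F, x < δ) → ∀ ζ < δ,
    ∃ a' ∈ A, (∀ i, ζ < a' i ∧ a' i < δ) ∧ ∀ i, ∀ x ∈ F, W.e (a' i) x = W.e (a i) x

theorem refl_aux (A : Set (ι → Ω)) : ¬ Stat {δ | ¬ W.Refl A δ} := by
  classical
  intro hbad
  have h1 : ∀ δ ∈ {δ | ¬ W.Refl A δ}, ∃ (a : ι → Ω) (F : Finset Ω) (ζ : Ω), a ∈ A ∧
      (∀ i, δ ≤ a i) ∧ (∀ x ∈ F, x < δ) ∧ ζ < δ ∧
      ¬ ∃ a' ∈ A, (∀ i, ζ < a' i ∧ a' i < δ) ∧ ∀ i, ∀ x ∈ F, W.e (a' i) x = W.e (a i) x := by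
    intro δ hδ
    simp only [Set.mem_ofPred_eq, Refl] at hδ
    push Not at hδ
    obtain ⟨a, ha1, ha2, F, hF, ζ, hζ, hneg⟩ := hδ
    refine ⟨a, F, ζ, ha1, ha2, hF, hζ, ?_⟩
    rintro ⟨a', c1, c2, c3⟩
    obtain ⟨i, x, hx, hne⟩ := hneg a' c1 c2
    exact hne (c3 i x hx)
  choose! a F ζ h1 using h1
  obtain ⟨ζ0, hζ0⟩ := hbad.fodor ζ (fun δ hδ => (h1 δ hδ).2.2.2.1)
  obtain ⟨B', hB'sub, hB'stat, F0, hF0, hdata⟩ := W.uniformize hζ0 a (fun _ (_ : PEmpty) => ζ0) F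
    (fun δ hδ => (h1 δ hδ.1).2.2.1)
  obtain ⟨δ, hδ, hδζ⟩ := hB'stat.exists_gt ζ0
  obtain ⟨bd, hbd⟩ := exists_strict_bound (Set.countable_range (a δ))
  obtain ⟨δ', hδ', hδδ'⟩ := hB'stat.exists_gt bd
  obtain ⟨ha1, ha2, hF1, hζ1, -⟩ := h1 δ (hB'sub hδ).1
  obtain ⟨ha1', ha2', hF1', hζ1', hneg⟩ := h1 δ' (hB'sub hδ').1
  apply hneg
  refine ⟨a δ, ha1, fun i => ⟨?_, lt_trans (hbd _ ⟨i, rfl⟩) hδδ'⟩, ?_⟩
  · have : ζ δ' = ζ0 := (hB'sub hδ').2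
    rw [this]
    exact lt_of_lt_of_le hδζ (ha2 i)
  · intro i x hx
    rw [hF0 δ' hδ'] at hx
    exact (hdata δ hδ δ' hδ').1 i x hx

end Ladder

end

end Pool.Agent.Work.MP_bdf4c5_gt
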