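import Pool.Agent.Work.MP_bdf4c5_gt.Moore

/-!
Moore's oscillation theorem.
-/

set_option linter.unusedSectionVars false

namespace Pool.Agent.Work.MP_bdf4c5_gt

open Set

section

variable {Ω : Type} [LinearOrder Ω] [IsOmega1 Ω]

namespace Ladder

variable (W : Ladder Ω) {ι κ : Type} [Finite ι] [Finite κ]

theorem induct (A : Set (ι → Ω)) (B : Set (κ → Ω)) (δ : Ω)
    (hEq : W.Step (fun m n => m = n) A B δ) (hGt : W.Step (fun m n => m < n) A B δ)
    (hA : ∃ a ∈ A, ∀ i, δ ≤ a i) (hB : ∃ b ∈ B, ∀ j, δ ≤ b j) (m : ℕ) :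
    ∃ a ∈ A, (∀ i, δ ≤ a i) ∧ ∃ (b : ℕ → κ → Ω) (c : ι → κ → ℕ), ∀ q ≤ m, b q ∈ B ∧
      (∀ j, δ ≤ b q j) ∧ ∀ i j,
        rs true (signs (W.e (a i)) (W.e (b q j)) (W.L δ (b q j))) = c i j + q ∧
        lst true (signs (W.e (a i)) (W.e (b q j)) (W.L δ (b q j))) = false := by
  classical
  cases nonempty_fintype κ
  induction m with
  | zero =>
    obtain ⟨a, ha1, ha2⟩ := hA
    obtain ⟨b, hb1, hb2⟩ := hB
    obtain ⟨a', c1, c2, b', c3, c4, L', c5, c6, c7, c8, c9, c10, c11⟩ :=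
      hEq a ha1 ha2 b hb1 hb2 (Finset.univ.biUnion (fun j => W.L δ (b j)))
        (by
          intro x hx
          rw [Finset.mem_biUnion] at hx
          obtain ⟨j, -, hj⟩ := hx
          exact W.L_lt x hj)
        (by
          intro j x hx
          rw [Finset.mem_biUnion]
          exact ⟨j, Finset.mem_univ _, hx⟩)
    refine ⟨a', c1, c2, fun _ => b', fun i j =>
      rs true (signs (W.e (a' i)) (W.e (b' j)) (W.L δ (b' j))), ?_⟩
    intro q hq
    have hq0 : q = 0 := Nat.le_zero.mp hq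
    subst hq0
    refine ⟨c3, c4, fun i j => ⟨rfl, ?_⟩⟩
    rw [c10 j, signs_union, lst_append]
    · apply lst_false_block _ _ (signs_ne_nil c5)
      apply mem_signs_false
      intro x hx
      exact (c11 i j x hx).ge
    · intro x hx y hy
      exact c7 y hy x (by
        rw [Finset.mem_biUnion]
        exact ⟨j, Finset.mem_univ _, hx⟩)
  | succ m ih =>
    obtain ⟨a, ha1, ha2, b, c, hbc⟩ := ih
    let F : Finset Ω := (Finset.range (m+1)).biUnion
      (fun q => Finset.univ.biUnion (fun j => W.L δ (b q j)))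
    have hFmem : ∀ q ≤ m, ∀ j, ∀ x ∈ W.L δ (b q j), x ∈ F := by
      intro q hq j x hx
      rw [Finset.mem_biUnion]
      refine ⟨q, Finset.mem_range.mpr (by omega), ?_⟩
      rw [Finset.mem_biUnion]
      exact ⟨j, Finset.mem_univ _, hx⟩
    have hFlt : ∀ x ∈ F, x < δ := by
      intro x hx
      rw [Finset.mem_biUnion] at hx
      obtain ⟨q, -, hx⟩ := hx
      rw [Finset.mem_biUnion] at hx
      obtain ⟨j, -, hj⟩ := hx
      exact W.L_lt x hj
    obtain ⟨hbm1, hbm2, hbm3⟩ := hbc m le_rfl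
    obtain ⟨a1, p1, p2, b1, p3, p4, L1, p5, p6, p7, p8, p9, p10, p11⟩ :=
      hGt a ha1 ha2 (b m) hbm1 hbm2 F hFlt (hFmem m le_rfl)
    obtain ⟨a2, r1, r2, b2, r3, r4, L2, r5, r6, r7, r8, r9, r10, r11⟩ :=
      hEq a1 p1 p2 b1 p3 p4 (F ∪ L1) (by
        intro x hx
        rcases Finset.mem_union.mp hx with h | h
        · exact hFlt x h
        · exact p6 x h) (by
        intro j x hx
        rw [p10 j] at hx
        rcases Finset.mem_union.mp hx with h | h
        · exact Finset.mem_union_left _ (hFmem m le_rfl j x h)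
        · exact Finset.mem_union_right _ h)
    have ha2F : ∀ i, ∀ x ∈ F, W.e (a2 i) x = W.e (a i) x := fun i x hx =>
      (r8 i x (Finset.mem_union_left _ hx)).trans (p8 i x hx)
    refine ⟨a2, r1, r2, fun q => if q ≤ m then b q else b2, c, ?_⟩
    intro q hq
    by_cases hqm : q ≤ m
    · simp only [hqm, if_true]
      obtain ⟨s1, s2, s3⟩ := hbc q hqm
      refine ⟨s1, s2, fun i j => ?_⟩
      have : signs (W.e (a2 i)) (W.e (b q j)) (W.L δ (b q j)) =
          signs (W.e (a i)) (W.e (b q j)) (W.L δ (b q j)) := by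
        apply signs_congr
        · intro x hx; exact ha2F i x (hFmem q hqm j x hx)
        · intro x _; rfl
      rw [this]
      exact s3 i j
    · have hq1 : q = m + 1 := by omega
      subst hq1
      simp only [hqm, if_false]
      refine ⟨r3, r4, fun i j => ?_⟩
      have hlow : ∀ x ∈ W.L δ (b m j), x ∈ F := hFmem m le_rfl j
      have e0 : signs (W.e (a2 i)) (W.e (b2 j)) (W.L δ (b2 j)) =
          (signs (W.e (a i)) (W.e (b m j)) (W.L δ (b m j)) ++
            signs (W.e (a2 i)) (W.e (b2 j)) L1) ++ signs (W.e (a2 i)) (W.e (b2 j)) L2 := by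
        rw [r10 j, p10 j, signs_union, signs_union]
        · congr 2
          apply signs_congr
          · intro x hx; exact ha2F i x (hlow x hx)
          · intro x hx
            exact (r9 j x (Finset.mem_union_left _ (hlow x hx))).trans (p9 j x (hlow x hx))
        · intro x hx y hy; exact p7 y hy x (hlow x hx)
        · intro x hx y hy
          apply r7 y hy x
          rcases Finset.mem_union.mp hx with h | h
          · exact Finset.mem_union_left _ (hlow x h)
          · exact Finset.mem_union_right _ h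
      have e1 := rs_up_block (signs (W.e (a2 i)) (W.e (b2 j)) L1) (signs_ne_nil p5) (by
        apply mem_signs_true
        intro x hx
        rw [r8 i x (Finset.mem_union_right _ hx), r9 j x (Finset.mem_union_right _ hx)]
        exact p11 i j x hx)
      have e2 : ∀ y ∈ signs (W.e (a2 i)) (W.e (b2 j)) L2, y = false := by
        apply mem_signs_false
        intro x hx
        exact (r11 i j x hx).ge
      obtain ⟨t1, t2⟩ := hbm3 i j
      rw [e0, rs_append, rs_append, lst_append, lst_append, t2, e1.1, e1.2, t1,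
        rs_false_block _ _ e2]
      refine ⟨by ring, lst_false_block _ _ (signs_ne_nil r5) e2⟩

/-- Moore's theorem. -/
theorem moore (A : Set (ι → Ω)) (B : Set (κ → Ω)) (hA : ∀ δ, ∃ a ∈ A, ∀ i, δ ≤ a i)
    (hB : ∀ δ, ∃ b ∈ B, ∀ j, δ ≤ b j) (n : ℕ) :
    ∃ a ∈ A, ∃ (b : ℕ → κ → Ω) (c : ι → κ → ℕ), ∀ m < n, b m ∈ B ∧
      ∀ i j, a i < b m j ∧ W.osc (a i) (b m j) = c i j + m := by
  classical
  cases nonempty_fintype κ
  -- choose δ
  have hδ : ∃ δ : Ω, IsLim δ ∧ W.Step (fun m n => m = n) A B δ ∧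
      W.Step (fun m n => m < n) A B δ ∧ W.Refl A δ := by
    by_contra hcon
    push Not at hcon
    have h1 := (stat_univ (Ω := Ω)).inter_lim
    have h2 : ¬ Stat ({δ | ¬ W.Step (fun m n => m = n) A B δ} ∪
        ({δ | ¬ W.Step (fun m n => m < n) A B δ} ∪ {δ | ¬ W.Refl A δ})) :=
      not_stat_union (W.eqStep A B) (not_stat_union (W.gtStep A B) (W.refl_aux A))
    apply h2
    refine h1.mono ?_
    rintro δ ⟨-, hlim⟩
    by_cases c1 : W.Step (fun m n => m = n) A B δ
    · by_cases c2 : W.Step (fun m n => m < n) A B δ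
      · exact Or.inr (Or.inr (hcon δ hlim c1 c2))
      · exact Or.inr (Or.inl c2)
    · exact Or.inl c1
  obtain ⟨δ, hlim, hEq, hGt, hRefl⟩ := hδ
  obtain ⟨a, ha1, ha2, b, c, hbc⟩ := W.induct A B δ hEq hGt (hA δ) (hB δ) n
  let F : Finset Ω := (Finset.range (n+1)).biUnion
    (fun q => Finset.univ.biUnion (fun j => W.L δ (b q j)))
  have hFmem : ∀ q ≤ n, ∀ j, ∀ x ∈ W.L δ (b q j), x ∈ F := by
    intro q hq j x hx
    rw [Finset.mem_biUnion]
    refine ⟨q, Finset.mem_range.mpr (by omega), ?_⟩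
    rw [Finset.mem_biUnion]
    exact ⟨j, Finset.mem_univ _, hx⟩
  have hFlt : ∀ x ∈ F, x < δ := by
    intro x hx
    rw [Finset.mem_biUnion] at hx
    obtain ⟨q, -, hx⟩ := hx
    rw [Finset.mem_biUnion] at hx
    obtain ⟨j, -, hj⟩ := hx
    exact W.L_lt x hj
  obtain ⟨ν, hν1, hν2, hν3⟩ := W.exists_agree hlim.1
    (fun p : Fin (n+1) × κ => b p.1 p.2) (fun p => (hbc p.1 (by omega)).2.1 p.2) F hFlt
  obtain ⟨ζ, hζ1, hζ2⟩ := W.L_near_limit hlim hν1
  obtain ⟨a', ha', ha'2, ha'3⟩ := hRefl a ha1 ha2 F hFlt (max ζ ν) (max_lt hζ1 hν1)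
  refine ⟨a', ha', b, fun i j => c i j +
    rs false (signs (W.e (a' i)) (W.e δ) (W.L (a' i) δ)), ?_⟩
  intro m hm
  obtain ⟨s1, s2, s3⟩ := hbc m hm.le
  refine ⟨s1, fun i j => ⟨lt_of_lt_of_le (ha'2 i).2 (s2 j), ?_⟩⟩
  obtain ⟨hne, hhigh⟩ := hζ2 (a' i) (lt_of_le_of_lt (le_max_left _ _) (ha'2 i).1) (ha'2 i).2
  have hνa : ν < a' i := lt_of_le_of_lt (le_max_right _ _) (ha'2 i).1
  have hsep : ∀ x ∈ W.L δ (b m j), ∀ y ∈ W.L (a' i) δ, x < y := by
    intro x hx y hy
    exact lt_of_le_of_lt (hν2 x (hFmem m hm.le j x hx)) (hhigh y hy)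
  have hL := W.L_concat (ha'2 i).2.le (s2 j)
    (fun x hx => lt_of_le_of_lt (hν2 x (hFmem m hm.le j x hx)) hνa) hsep
  unfold osc
  rw [hL, Finset.union_comm, signs_union _ _ _ _ hsep, rs_append]
  have e1 : signs (W.e (a' i)) (W.e (b m j)) (W.L δ (b m j)) =
      signs (W.e (a i)) (W.e (b m j)) (W.L δ (b m j)) := by
    apply signs_congr
    · intro x hx; exact ha'3 i x (hFmem m hm.le j x hx)
    · intro x _; rfl
  have e2 : signs (W.e (a' i)) (W.e (b m j)) (W.L (a' i) δ) =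
      signs (W.e (a' i)) (W.e δ) (W.L (a' i) δ) := by
    apply signs_congr
    · intro x _; rfl
    · intro x hx
      exact hν3 (⟨m, by omega⟩, j) x (hhigh x hx) (lt_trans (W.L_lt x hx) (ha'2 i).2)
  rw [e1, e2, (s3 i j).1, (s3 i j).2]
  ring

end Ladder

end

end Pool.Agent.Work.MP_bdf4c5_gt
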