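import Mathlib

/-!
Stationary subsets of an `ω₁`-like well order, and the pressing-down lemma.
-/

set_option linter.unusedSectionVars false

namespace Pool.Agent.Work.MP_bdf4c5_gt

open Set

/-- A linear order that behaves like `ω₁`. -/
class IsOmega1 (Ω : Type) [LinearOrder Ω] : Prop where
  wf : WellFoundedLT Ω
  countable_Iio : ∀ a : Ω, (Set.Iio a).Countable
  unc : Uncountable Ω

section

variable {Ω : Type} [LinearOrder Ω] [IsOmega1 Ω]

instance instWellFoundedLTOmega : WellFoundedLT Ω := IsOmega1.wf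

theorem countable_Iio (a : Ω) : (Set.Iio a).Countable := IsOmega1.countable_Iio a

theorem countable_Iic (a : Ω) : (Set.Iic a).Countable := by
  have : Set.Iic a = insert a (Set.Iio a) := by
    ext x; simp [le_iff_lt_or_eq, or_comm]
  rw [this]
  exact (countable_Iio a).insert a

theorem exists_strict_bound {s : Set Ω} (hs : s.Countable) : ∃ b : Ω, ∀ x ∈ s, x < b := by
  by_contra hcon
  push Not at hcon
  have h1 : (Set.univ : Set Ω) ⊆ ⋃ x ∈ s, Set.Iic x := by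
    intro b _
    obtain ⟨x, hx, hbx⟩ := hcon b
    exact Set.mem_biUnion hx hbx
  have h2 : (⋃ x ∈ s, Set.Iic x).Countable := hs.biUnion (fun x _ => countable_Iic x)
  have h3 : (Set.univ : Set Ω).Countable := h2.mono h1
  have hu : Uncountable Ω := IsOmega1.unc
  exact (Set.not_countable_univ_iff.mpr hu) h3

theorem exists_gt_omega (a : Ω) : ∃ b : Ω, a < b := by
  obtain ⟨b, hb⟩ := exists_strict_bound (Set.countable_singleton a)
  exact ⟨b, hb a rfl⟩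

/-- Stationarity, phrased with closure points of functions. -/
def Stat (S : Set Ω) : Prop :=
  ∀ (g : Ω → Ω) (γ : Ω), ∃ δ ∈ S, γ < δ ∧ ∀ ξ < δ, g ξ < δ

theorem Stat.mono {S T : Set Ω} (h : Stat S) (hST : S ⊆ T) : Stat T := by
  intro g γ
  obtain ⟨δ, hδ, h1, h2⟩ := h g γ
  exact ⟨δ, hST hδ, h1, h2⟩

theorem stat_univ : Stat (Set.univ : Set Ω) := by
  intro g γ
  -- step function
  have hstep : ∀ x : Ω, ∃ y : Ω, x < y ∧ ∀ ξ ≤ x, g ξ < y := by
    intro x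
    have hc : (insert x (g '' Set.Iic x)).Countable := ((countable_Iic x).image g).insert x
    obtain ⟨y, hy⟩ := exists_strict_bound hc
    exact ⟨y, hy x (Set.mem_insert _ _), fun ξ hξ => hy _ (Set.mem_insert_of_mem _ ⟨ξ, hξ, rfl⟩)⟩
  choose s hs1 hs2 using hstep
  let x : ℕ → Ω := fun n => Nat.rec (s γ) (fun _ y => s y) n
  have hx : ∀ n, x (n+1) = s (x n) := fun n => rfl
  obtain ⟨b, hb⟩ := exists_strict_bound (Set.countable_range x)
  let U : Set Ω := {y | ∀ n, x n < y}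
  have hU : U.Nonempty := ⟨b, fun n => hb _ ⟨n, rfl⟩⟩
  let δ := WellFounded.min (wellFounded_lt (α := Ω)) U hU
  have hδ : ∀ n, x n < δ := WellFounded.min_mem (wellFounded_lt (α := Ω)) U hU
  refine ⟨δ, Set.mem_univ _, lt_trans (hs1 γ) (hδ 0), ?_⟩
  intro ξ hξ
  have hnot : ξ ∉ U := fun hmem =>
    WellFounded.not_lt_min (wellFounded_lt (α := Ω)) U hmem hξ
  have : ∃ n, ξ ≤ x n := by
    by_contra hc
    push Not at hc
    exact hnot hc
  obtain ⟨n, hn⟩ := this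
  calc g ξ < s (x n) := hs2 (x n) ξ hn
    _ = x (n+1) := (hx n).symm
    _ < δ := hδ (n+1)

theorem Stat.exists_gt {S : Set Ω} (h : Stat S) (γ : Ω) : ∃ δ ∈ S, γ < δ := by
  obtain ⟨δ, h1, h2, _⟩ := h id γ
  exact ⟨δ, h1, h2⟩

theorem Stat.nonempty' {S : Set Ω} (h : Stat S) : ∃ δ, δ ∈ S := by
  have hu : Uncountable Ω := IsOmega1.unc
  obtain ⟨γ0⟩ : Nonempty Ω := inferInstance
  obtain ⟨δ, h1, _⟩ := h.exists_gt γ0
  exact ⟨δ, h1⟩

theorem Stat.inter_closure {S : Set Ω} (h : Stat S) (g0 : Ω → Ω) (γ0 : Ω) :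
    Stat {δ ∈ S | γ0 < δ ∧ ∀ ξ < δ, g0 ξ < δ} := by
  intro g γ
  obtain ⟨δ, h1, h2, h3⟩ := h (fun ξ => max (g ξ) (g0 ξ)) (max γ γ0)
  refine ⟨δ, ⟨h1, lt_of_le_of_lt (le_max_right _ _) h2, fun ξ hξ => ?_⟩,
    lt_of_le_of_lt (le_max_left _ _) h2, fun ξ hξ => ?_⟩
  · exact lt_of_le_of_lt (le_max_right _ _) (h3 ξ hξ)
  · exact lt_of_le_of_lt (le_max_left _ _) (h3 ξ hξ)

/-- `δ` is a limit point. -/
def IsLim (δ : Ω) : Prop := (∃ ξ, ξ < δ) ∧ ∀ ξ < δ, ∃ η, ξ < η ∧ η < δ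

theorem Stat.inter_lim {S : Set Ω} (h : Stat S) : Stat {δ ∈ S | IsLim δ} := by
  choose s hs using (exists_gt_omega (Ω := Ω))
  have hu : Uncountable Ω := IsOmega1.unc
  obtain ⟨γ0⟩ : Nonempty Ω := inferInstance
  refine (h.inter_closure s γ0).mono ?_
  rintro δ ⟨h1, h2, h3⟩
  exact ⟨h1, ⟨γ0, h2⟩, fun ξ hξ => ⟨s ξ, hs ξ, h3 ξ hξ⟩⟩

/-- A countable union of nonstationary sets is nonstationary. -/
theorem Stat.iUnion {ι : Type*} [Countable ι] {S : Set Ω} (h : Stat S) (T : ι → Set Ω)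
    (hST : S ⊆ ⋃ i, T i) : ∃ i, Stat (T i) := by
  by_contra hcon
  push Not at hcon
  have : ∀ i, ∃ (g : Ω → Ω) (γ : Ω), ∀ δ ∈ T i, γ < δ → ∃ ξ < δ, δ ≤ g ξ := by
    intro i
    have := hcon i
    unfold Stat at this
    push Not at this
    exact this
  choose g γ hg using this
  have hG : ∀ ξ : Ω, ∃ y, ∀ i, g i ξ < y := by
    intro ξ
    obtain ⟨b, hb⟩ := exists_strict_bound (Set.countable_range (fun i => g i ξ))
    exact ⟨b, fun i => hb _ ⟨i, rfl⟩⟩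
  choose G hG using hG
  obtain ⟨b, hb⟩ := exists_strict_bound (Set.countable_range γ)
  obtain ⟨δ, h1, h2, h3⟩ := h G b
  obtain ⟨i, hi⟩ := Set.mem_iUnion.mp (hST h1)
  obtain ⟨ξ, hξ, hle⟩ := hg i δ hi (lt_trans (hb _ ⟨i, rfl⟩) h2)
  exact absurd (lt_of_lt_of_le (hG ξ i) (le_refl _)) (not_lt.mpr ((h3 ξ hξ).le.trans hle))

theorem Stat.countable_fiber {P : Type*} {S : Set Ω} (h : Stat S) (f : Ω → P) {D : Set P}
    (hD : D.Countable) (hf : ∀ δ ∈ S, f δ ∈ D) : ∃ p ∈ D, Stat {δ ∈ S | f δ = p} := by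
  have : Countable D := hD.to_subtype
  obtain ⟨p, hp⟩ := h.iUnion (fun p : D => {δ ∈ S | f δ = p}) (by
    intro δ hδ
    exact Set.mem_iUnion.mpr ⟨⟨f δ, hf δ hδ⟩, hδ, rfl⟩)
  exact ⟨p, p.2, hp⟩

theorem Stat.countable_fiber' {P : Type*} [Countable P] {S : Set Ω} (h : Stat S) (f : Ω → P) :
    ∃ p, Stat {δ ∈ S | f δ = p} := by
  obtain ⟨p, _, hp⟩ := h.countable_fiber f (D := Set.univ) (Set.countable_univ)
    (fun _ _ => Set.mem_univ _)
  exact ⟨p, hp⟩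

/-- Fodor's pressing-down lemma. -/
theorem Stat.fodor {S : Set Ω} (h : Stat S) (f : Ω → Ω) (hf : ∀ δ ∈ S, f δ < δ) :
    ∃ η, Stat {δ ∈ S | f δ = η} := by
  by_contra hcon
  push Not at hcon
  have : ∀ η, ∃ (g : Ω → Ω) (γ : Ω), ∀ δ ∈ {δ ∈ S | f δ = η}, γ < δ → ∃ ξ < δ, δ ≤ g ξ := by
    intro η
    have := hcon η
    unfold Stat at this
    push Not at this
    exact this
  choose g γ hg using this
  have hG : ∀ ξ : Ω, ∃ y, (∀ η ≤ ξ, γ η < y) ∧ ∀ η ≤ ξ, ∀ ξ' ≤ ξ, g η ξ' < y := by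
    intro ξ
    have hc1 : (γ '' Set.Iic ξ).Countable := (countable_Iic ξ).image _
    have hc2 : ((fun p : Ω × Ω => g p.1 p.2) '' (Set.Iic ξ ×ˢ Set.Iic ξ)).Countable :=
      ((countable_Iic ξ).prod (countable_Iic ξ)).image _
    obtain ⟨y, hy⟩ := exists_strict_bound (hc1.union hc2)
    refine ⟨y, fun η hη => hy _ (Or.inl ⟨η, hη, rfl⟩), fun η hη ξ' hξ' =>
      hy _ (Or.inr ⟨(η, ξ'), ⟨hη, hξ'⟩, rfl⟩)⟩
  choose G hG1 hG2 using hG
  have hu : Uncountable Ω := IsOmega1.unc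
  obtain ⟨γ0⟩ : Nonempty Ω := inferInstance
  obtain ⟨δ, h1, h2, h3⟩ := h G γ0
  have hη := hf δ h1
  obtain ⟨ξ, hξ, hle⟩ := hg (f δ) δ ⟨h1, rfl⟩ (lt_trans (hG1 (f δ) (f δ) le_rfl) (h3 _ hη))
  have h4 : g (f δ) ξ < G (max ξ (f δ)) := hG2 _ _ (le_max_right _ _) _ (le_max_left _ _)
  have h5 : G (max ξ (f δ)) < δ := h3 _ (max_lt hξ hη)
  exact absurd (h4.trans h5) (not_lt.mpr hle)

/-- Pressing down for finite sets. -/
theorem Stat.fodor_finset {S : Set Ω} (h : Stat S) (f : Ω → Finset Ω)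
    (hf : ∀ δ ∈ S, ∀ x ∈ f δ, x < δ) : ∃ F, Stat {δ ∈ S | f δ = F} := by
  have hu : Uncountable Ω := IsOmega1.unc
  obtain ⟨γ0⟩ : Nonempty Ω := inferInstance
  have hS := h.inter_closure id γ0
  have hb : ∀ δ ∈ {δ ∈ S | γ0 < δ ∧ ∀ ξ < δ, id ξ < δ}, ∃ ξ < δ, ∀ x ∈ f δ, x ≤ ξ := by
    rintro δ ⟨h1, h2, -⟩
    by_cases hne : (f δ).Nonempty
    · exact ⟨(f δ).max' hne, hf δ h1 _ (Finset.max'_mem _ _), fun x hx => Finset.le_max' _ _ hx⟩
    · rw [Finset.not_nonempty_iff_eq_empty] at hne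
      exact ⟨γ0, h2, by simp [hne]⟩
  choose! r hr1 hr2 using hb
  obtain ⟨η, hη⟩ := hS.fodor r hr1
  have hcount : {F : Finset Ω | ∀ x ∈ F, x ≤ η}.Countable := by
    have h1 : {t : Set Ω | t.Finite ∧ t ⊆ Set.Iic η}.Countable :=
      Set.countable_ofPred_finite_subset (countable_Iic η)
    refine (h1.preimage_of_injOn (f := fun F : Finset Ω => (F : Set Ω))
      (Finset.coe_injective.injOn)).mono ?_
    intro F hF
    exact ⟨F.finite_toSet, fun x hx => hF x hx⟩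
  obtain ⟨F, _, hF⟩ := hη.countable_fiber f hcount (by
    rintro δ ⟨h1, h2⟩
    intro x hx
    rw [← h2]
    exact hr2 δ h1 x hx)
  exact ⟨F, hF.mono (fun δ hδ => ⟨hδ.1.1.1, hδ.2⟩)⟩

theorem not_stat_union {S T : Set Ω} (hS : ¬ Stat S) (hT : ¬ Stat T) : ¬ Stat (S ∪ T) := by
  intro h
  obtain ⟨i, hi⟩ := h.iUnion (fun b : Bool => if b then S else T) (by
    rintro δ (h1 | h1)
    · exact Set.mem_iUnion.mpr ⟨true, by simpa using h1⟩
    · exact Set.mem_iUnion.mpr ⟨false, by simpa using h1⟩)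
  cases i
  · exact hT (by simpa using hi)
  · exact hS (by simpa using hi)

/-- An unbounded (nonstationary or not) countable partition of the whole order has an unbounded
piece. -/
theorem exists_unbounded_fiber (N : Ω → ℕ) : ∃ n, ∀ γ, ∃ ν, γ < ν ∧ N ν = n := by
  obtain ⟨n, hn⟩ := (stat_univ (Ω := Ω)).countable_fiber' N
  refine ⟨n, fun γ => ?_⟩
  obtain ⟨ν, h1, h2⟩ := hn.exists_gt γ
  exact ⟨ν, h2, h1.2⟩

end

end Pool.Agent.Work.MP_bdf4c5_gt
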