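import Pool.Agent.Work.MP_bdf4c5_gt.Kronecker

/-!
The two-valued function on the circle and its uniform pattern property.
-/

namespace Pool.Agent.Work.MP_bdf4c5_gt

open Set

/-- The two-valued function used to define the space. -/
noncomputable def Fn (t : ℝ × ℝ) (o : ℕ) (r : ℝ) : Bool :=
  xor (decide (Int.fract ((o : ℝ) * t.1) < r)) (decide (Int.fract ((o : ℝ) * t.2) < 1 / 2))

/-- open arc -/
def arc (a b : ℝ) : Set UnitAddCircle := (fun u : ℝ => (u : UnitAddCircle)) '' Set.Ioo a b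

theorem isOpen_arc (a b : ℝ) : IsOpen (arc a b) :=
  QuotientAddGroup.isOpenMap_coe _ isOpen_Ioo

theorem fract_of_arc {a b v : ℝ} (ha : 0 ≤ a) (hb : b ≤ 1) (h : (v : UnitAddCircle) ∈ arc a b) :
    a < Int.fract v ∧ Int.fract v < b := by
  obtain ⟨u, hu, huv⟩ := h
  have h1 : ∃ n : ℤ, v - u = n := by
    have h2 : ((u : ℝ) : UnitAddCircle) = ((v : ℝ) : UnitAddCircle) := huv
    rw [QuotientAddGroup.eq, AddSubgroup.mem_zmultiples_iff] at h2
    obtain ⟨n, hn⟩ := h2
    refine ⟨n, ?_⟩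
    simp at hn
    linarith
  obtain ⟨n, hn⟩ := h1
  have h3 : v = u + n := by linarith
  rw [h3, Int.fract_add_intCast]
  have h4 : Int.fract u = u := Int.fract_eq_self.mpr ⟨ha.trans hu.1.le, lt_of_lt_of_le hu.2 hb⟩
  rw [h4]
  exact hu

theorem arc_mono {a b a' b' : ℝ} (ha : a' ≤ a) (hb : b ≤ b') : arc a b ⊆ arc a' b' :=
  Set.image_mono (Set.Ioo_subset_Ioo ha hb)

theorem coe_mem_arc {a b u : ℝ} (h1 : a < u) (h2 : u < b) : (u : UnitAddCircle) ∈ arc a b :=
  ⟨u, ⟨h1, h2⟩, rfl⟩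

/-- robust version of `[y < r] = b` -/
def arcB (N : ℕ) (r : ℝ) (b : Bool) : Set UnitAddCircle :=
  if b then arc 0 (r - 1 / ((N : ℝ) + 1)) else arc (r + 1 / ((N : ℝ) + 1)) 1

/-- robust version of `[z < 1/2] = b` -/
def halfB (b : Bool) : Set UnitAddCircle := if b then arc 0 (1 / 2) else arc (1 / 2) 1

/-- robust version of `F = t`. -/
def Wset (N : ℕ) (r : ℝ) (t : Bool) : Set (UnitAddCircle × UnitAddCircle) :=
  {p | ∃ b : Bool, p.1 ∈ arcB N r b ∧ p.2 ∈ halfB (xor b t)}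

theorem isOpen_arcB (N : ℕ) (r : ℝ) (b : Bool) : IsOpen (arcB N r b) := by
  unfold arcB; split_ifs <;> exact isOpen_arc _ _

theorem isOpen_halfB (b : Bool) : IsOpen (halfB b) := by
  unfold halfB; split_ifs <;> exact isOpen_arc _ _

theorem isOpen_Wset (N : ℕ) (r : ℝ) (t : Bool) : IsOpen (Wset N r t) := by
  have : Wset N r t = ⋃ b : Bool, (Prod.fst ⁻¹' (arcB N r b)) ∩ (Prod.snd ⁻¹' (halfB (xor b t))) := by
    ext p
    simp [Wset]
  rw [this]
  exact isOpen_iUnion (fun b => ((isOpen_arcB N r b).preimage continuous_fst).inter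
    ((isOpen_halfB _).preimage continuous_snd))

theorem Wset_mono {N N' : ℕ} (h : N ≤ N') (r : ℝ) (t : Bool) : Wset N r t ⊆ Wset N' r t := by
  rintro p ⟨b, h1, h2⟩
  refine ⟨b, ?_, h2⟩
  have h3 : 1 / ((N' : ℝ) + 1) ≤ 1 / ((N : ℝ) + 1) := by
    apply one_div_le_one_div_of_le (by positivity)
    have : (N : ℝ) ≤ N' := by exact_mod_cast h
    linarith
  unfold arcB at h1 ⊢
  split_ifs at h1 ⊢
  · exact arc_mono le_rfl (by linarith) h1
  · exact arc_mono (by linarith) le_rfl h1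

theorem Wset_spec {N : ℕ} {r : ℝ} (hr0 : 0 < r) (hr1 : r < 1 / 2) {τ : Bool} {t : ℝ × ℝ} {o : ℕ}
    (h : ((((o : ℝ) * t.1 : ℝ) : UnitAddCircle), (((o : ℝ) * t.2 : ℝ) : UnitAddCircle)) ∈ Wset N r τ)
    {s : ℝ} (hs : |s - r| < 1 / ((N : ℝ) + 1)) : Fn t o s = τ := by
  obtain ⟨b, h1, h2⟩ := h
  rw [abs_lt] at hs
  have hN : 0 < 1 / ((N : ℝ) + 1) := by positivity
  have e1 : decide (Int.fract ((o : ℝ) * t.1) < s) = b := by
    cases b
    · simp only [arcB, Bool.false_eq_true, if_false] at h1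
      have := fract_of_arc (by linarith) le_rfl h1
      rw [decide_eq_false_iff_not]
      linarith
    · simp only [arcB, if_true] at h1
      have := fract_of_arc le_rfl (by linarith) h1
      rw [decide_eq_true_iff]
      linarith
  have e2 : decide (Int.fract ((o : ℝ) * t.2) < 1 / 2) = xor b τ := by
    generalize xor b τ = c at h2
    cases c
    · simp only [halfB, Bool.false_eq_true, if_false] at h2
      have := fract_of_arc (by norm_num) le_rfl h2
      rw [decide_eq_false_iff_not]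
      linarith
    · simp only [halfB, if_true] at h2
      have := fract_of_arc le_rfl (by norm_num) h2
      rw [decide_eq_true_iff]
      linarith
  unfold Fn
  rw [e1, e2]
  cases b <;> cases τ <;> rfl

/-- slack-free version of `arcB` -/
def arcS (r : ℝ) (b : Bool) : Set UnitAddCircle := if b then arc 0 r else arc r 1

theorem arcS_to_arcB {r : ℝ} {b : Bool} {x : UnitAddCircle} (h : x ∈ arcS r b) :
    ∃ N0 : ℕ, ∀ N ≥ N0, x ∈ arcB N r b := by
  cases b
  · simp only [arcS, Bool.false_eq_true, if_false] at h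
    obtain ⟨u, ⟨hu1, hu2⟩, rfl⟩ := h
    obtain ⟨N0, hN0⟩ := exists_nat_one_div_lt (sub_pos.mpr hu1)
    refine ⟨N0, fun N hN => ?_⟩
    simp only [arcB, Bool.false_eq_true, if_false]
    apply coe_mem_arc _ hu2
    have h3 : 1 / ((N : ℝ) + 1) ≤ 1 / ((N0 : ℝ) + 1) := by
      apply one_div_le_one_div_of_le (by positivity)
      have : (N0 : ℝ) ≤ N := by exact_mod_cast hN
      linarith
    linarith
  · simp only [arcS, if_true] at h
    obtain ⟨u, ⟨hu1, hu2⟩, rfl⟩ := h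
    obtain ⟨N0, hN0⟩ := exists_nat_one_div_lt (sub_pos.mpr hu2)
    refine ⟨N0, fun N hN => ?_⟩
    simp only [arcB, if_true]
    apply coe_mem_arc hu1
    have h3 : 1 / ((N : ℝ) + 1) ≤ 1 / ((N0 : ℝ) + 1) := by
      apply one_div_le_one_div_of_le (by positivity)
      have : (N0 : ℝ) ≤ N := by exact_mod_cast hN
      linarith
    linarith

theorem coe_sub_one (u : ℝ) : ((u - 1 : ℝ) : UnitAddCircle) = (u : UnitAddCircle) := by
  have h : ((1 : ℝ) : UnitAddCircle) = 0 := AddCircle.coe_period 1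
  rw [AddCircle.coe_sub, h, sub_zero]

theorem coe_add_one (u : ℝ) : ((u + 1 : ℝ) : UnitAddCircle) = (u : UnitAddCircle) := by
  have h : ((1 : ℝ) : UnitAddCircle) = 0 := AddCircle.coe_period 1
  rw [AddCircle.coe_add, h, add_zero]

/-- representative in `[0,1)` -/
theorem exists_rep (x : UnitAddCircle) : ∃ d : ℝ, 0 ≤ d ∧ d < 1 ∧ (d : UnitAddCircle) = x := by
  obtain ⟨v, rfl⟩ := QuotientAddGroup.mk_surjective x
  refine ⟨Int.fract v, Int.fract_nonneg v, Int.fract_lt_one v, ?_⟩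
  have h1 : v = Int.fract v + Int.floor v := by rw [Int.fract_add_floor]
  have h2 : ((Int.floor v : ℝ) : UnitAddCircle) = 0 := by
    have : ((Int.floor v : ℝ) : UnitAddCircle) = (Int.floor v) • ((1 : ℝ) : UnitAddCircle) := by
      rw [← AddCircle.coe_zsmul]; simp
    rw [this, AddCircle.coe_period, smul_zero]
  have h3 : ((v : ℝ) : UnitAddCircle) = ((Int.fract v + Int.floor v : ℝ) : UnitAddCircle) := by
    rw [← h1]
  have h4 : ((v : ℝ) : UnitAddCircle) = ((Int.fract v : ℝ) : UnitAddCircle) := by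
    rw [h3, AddCircle.coe_add, h2, add_zero]
  exact h4.symm

/-- in the `y`-coordinate, both false -/
theorem y_false_false {r0 r1 : ℝ} (h0 : 0 < r0) (h0' : r0 < 1/2) (_h1 : 0 < r1) (h1' : r1 < 1/2)
    (δ : UnitAddCircle) : ∃ y, y ∈ arcS r0 false ∧ y + δ ∈ arcS r1 false := by
  obtain ⟨d, hd0, hd1, rfl⟩ := exists_rep δ
  simp only [arcS, Bool.false_eq_true, if_false]
  by_cases hc : d < 1 - r0
  · -- y in (max r0 (r1 - d), 1 - d)
    obtain ⟨y, hy1, hy2⟩ := exists_between (show max r0 (r1 - d) < 1 - d from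
      max_lt (by linarith) (by linarith))
    refine ⟨(y : UnitAddCircle), coe_mem_arc (lt_of_le_of_lt (le_max_left _ _) hy1) (by linarith),
      ?_⟩
    rw [← AddCircle.coe_add]
    have := lt_of_le_of_lt (le_max_right _ _) hy1
    exact coe_mem_arc (by linarith) (by linarith)
  · push Not at hc
    obtain ⟨y, hy1, hy2⟩ := exists_between (show max r0 (r1 - d + 1) < 1 from
      max_lt (by linarith) (by linarith))
    refine ⟨(y : UnitAddCircle), coe_mem_arc (lt_of_le_of_lt (le_max_left _ _) hy1) hy2, ?_⟩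
    rw [← AddCircle.coe_add, ← coe_sub_one]
    have := lt_of_le_of_lt (le_max_right _ _) hy1
    exact coe_mem_arc (by linarith) (by linarith)

theorem y_true_false {r0 r1 : ℝ} (h0' : r0 < 1/2) (h1 : 0 < r1) (h : r1 < r0)
    (δ : UnitAddCircle) : ∃ y, y ∈ arcS r0 true ∧ y + δ ∈ arcS r1 false := by
  obtain ⟨d, hd0, hd1, rfl⟩ := exists_rep δ
  simp only [arcS, Bool.false_eq_true, if_false, if_true]
  obtain ⟨v, hv1, hv2⟩ := exists_between (show max d r1 < min (d + r0) 1 from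
    max_lt (lt_min (by linarith) hd1) (lt_min (by linarith) (by linarith)))
  have a1 := lt_of_le_of_lt (le_max_left _ _) hv1
  have a2 := lt_of_le_of_lt (le_max_right _ _) hv1
  have a3 := lt_of_lt_of_le hv2 (min_le_left _ _)
  have a4 := lt_of_lt_of_le hv2 (min_le_right _ _)
  refine ⟨((v - d : ℝ) : UnitAddCircle), coe_mem_arc (by linarith) (by linarith), ?_⟩
  rw [← AddCircle.coe_add, sub_add_cancel]
  exact coe_mem_arc a2 a4

/-- different values in the `y`-coordinate. -/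
theorem y_diff {r0 r1 : ℝ} (h0 : 0 < r0) (h0' : r0 < 1/2) (h1 : 0 < r1) (h1' : r1 < 1/2)
    (hne : r0 ≠ r1) (δ : UnitAddCircle) :
    ∃ (y : UnitAddCircle) (b : Bool), y ∈ arcS r0 b ∧ y + δ ∈ arcS r1 (!b) := by
  rcases lt_or_gt_of_ne hne with h | h
  · obtain ⟨y, hy1, hy2⟩ := y_true_false h1' h0 h (-δ)
    refine ⟨y + -δ, false, hy2, ?_⟩
    rw [neg_add_cancel_right]
    exact hy1
  · obtain ⟨y, hy1, hy2⟩ := y_true_false h0' h1 h δ
    exact ⟨y, true, hy1, hy2⟩

/-- In the `z`-coordinate all patterns occur unless the shift is `0` or `1/2`. -/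
theorem z_aux (d : ℝ) (hd0 : 0 < d) (hd1 : d < 1 / 2) (c0 c1 : Bool) :
    ∃ z : UnitAddCircle, z ∈ halfB c0 ∧ z + (d : UnitAddCircle) ∈ halfB c1 := by
  cases c0 <;> cases c1 <;> simp only [halfB, Bool.false_eq_true, if_false, if_true]
  · refine ⟨((1/2 + (1/2 - d)/2 : ℝ) : UnitAddCircle), coe_mem_arc (by linarith) (by linarith), ?_⟩
    rw [← AddCircle.coe_add]
    exact coe_mem_arc (by linarith) (by linarith)
  · refine ⟨((1 - d/2 : ℝ) : UnitAddCircle), coe_mem_arc (by linarith) (by linarith), ?_⟩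
    rw [← AddCircle.coe_add, ← coe_sub_one]
    exact coe_mem_arc (by linarith) (by linarith)
  · refine ⟨((1/2 - d/2 : ℝ) : UnitAddCircle), coe_mem_arc (by linarith) (by linarith), ?_⟩
    rw [← AddCircle.coe_add]
    exact coe_mem_arc (by linarith) (by linarith)
  · refine ⟨(((1/2 - d)/2 : ℝ) : UnitAddCircle), coe_mem_arc (by linarith) (by linarith), ?_⟩
    rw [← AddCircle.coe_add]
    exact coe_mem_arc (by linarith) (by linarith)

theorem halfB_flip {z : UnitAddCircle} {c : Bool} (h : z ∈ halfB c) :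
    z + ((1 / 2 : ℝ) : UnitAddCircle) ∈ halfB (!c) := by
  cases c <;> simp only [halfB, Bool.false_eq_true, if_false, if_true, Bool.not_true,
    Bool.not_false] at h ⊢
  · obtain ⟨u, ⟨hu1, hu2⟩, rfl⟩ := h
    show ((u : ℝ) : UnitAddCircle) + _ ∈ _
    rw [← AddCircle.coe_add, ← coe_sub_one]
    exact coe_mem_arc (by linarith) (by linarith)
  · obtain ⟨u, ⟨hu1, hu2⟩, rfl⟩ := h
    show ((u : ℝ) : UnitAddCircle) + _ ∈ _
    rw [← AddCircle.coe_add]
    exact coe_mem_arc (by linarith) (by linarith)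

theorem exists_halfB (c : Bool) : ∃ z, z ∈ halfB c := by
  cases c
  · exact ⟨((3/4 : ℝ) : UnitAddCircle), by
      simp only [halfB, Bool.false_eq_true, if_false]
      exact coe_mem_arc (by norm_num) (by norm_num)⟩
  · exact ⟨((1/4 : ℝ) : UnitAddCircle), by
      simp only [halfB, if_true]
      exact coe_mem_arc (by norm_num) (by norm_num)⟩

/-- Trichotomy for the `z`-coordinate. -/
theorem z_cases (δ : UnitAddCircle) :
    (∀ c0 c1 : Bool, ∃ z, z ∈ halfB c0 ∧ z + δ ∈ halfB c1) ∨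
    (∃ f : Bool, ∀ c : Bool, ∃ z, z ∈ halfB c ∧ z + δ ∈ halfB (xor c f)) := by
  obtain ⟨d, hd0, hd1, rfl⟩ := exists_rep δ
  rcases hd0.eq_or_lt with rfl | hd0'
  · right
    refine ⟨false, fun c => ?_⟩
    obtain ⟨z, hz⟩ := exists_halfB c
    refine ⟨z, hz, ?_⟩
    have : ((0 : ℝ) : UnitAddCircle) = 0 := rfl
    rw [this, add_zero, Bool.xor_false]
    exact hz
  rcases lt_trichotomy d (1/2) with h | h | h
  · left
    exact fun c0 c1 => z_aux d hd0' h c0 c1
  · right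
    subst h
    refine ⟨true, fun c => ?_⟩
    obtain ⟨z, hz⟩ := exists_halfB c
    refine ⟨z, hz, ?_⟩
    rw [Bool.xor_true]
    exact halfB_flip hz
  · left
    intro c0 c1
    obtain ⟨z, hz1, hz2⟩ := z_aux (d - 1/2) (by linarith) (by linarith) c0 (!c1)
    refine ⟨z, hz1, ?_⟩
    have := halfB_flip hz2
    rw [Bool.not_not, add_assoc, ← AddCircle.coe_add, sub_add_cancel] at this
    exact this

/-- The basic pattern lemma: all four patterns are realised robustly for every shift. -/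
theorem pattern {r0 r1 : ℝ} (h0 : 0 < r0) (h0' : r0 < 1/2) (h1 : 0 < r1) (h1' : r1 < 1/2)
    (hne : r0 ≠ r1) (δ : UnitAddCircle × UnitAddCircle) (t0 t1 : Bool) :
    ∃ (N0 : ℕ) (p : UnitAddCircle × UnitAddCircle), ∀ N ≥ N0, p ∈ Wset N r0 t0 ∧
      p + δ ∈ Wset N r1 t1 := by
  suffices h : ∃ (y z : UnitAddCircle) (b0 b1 : Bool), y ∈ arcS r0 b0 ∧ y + δ.1 ∈ arcS r1 b1 ∧
      z ∈ halfB (xor b0 t0) ∧ z + δ.2 ∈ halfB (xor b1 t1) by
    obtain ⟨y, z, b0, b1, hy0, hy1, hz0, hz1⟩ := h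
    obtain ⟨N0, hN0⟩ := arcS_to_arcB hy0
    obtain ⟨N1, hN1⟩ := arcS_to_arcB hy1
    refine ⟨max N0 N1, (y, z), fun N hN => ⟨⟨b0, hN0 N (le_trans (le_max_left _ _) hN), hz0⟩,
      ⟨b1, hN1 N (le_trans (le_max_right _ _) hN), hz1⟩⟩⟩
  rcases z_cases δ.2 with hz | ⟨f, hf⟩
  · obtain ⟨y, hy0, hy1⟩ := y_false_false h0 h0' h1 h1' δ.1
    obtain ⟨z, hz0, hz1⟩ := hz (xor false t0) (xor false t1)
    exact ⟨y, z, false, false, hy0, hy1, hz0, hz1⟩
  · -- need b0, b1 with (b1 xor t1) = (b0 xor t0) xor f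
    have hy : ∃ (y : UnitAddCircle) (b0 b1 : Bool), y ∈ arcS r0 b0 ∧ y + δ.1 ∈ arcS r1 b1 ∧
        xor b1 t1 = xor (xor b0 t0) f := by
      by_cases hpar : xor t0 t1 = f
      · obtain ⟨y, hy0, hy1⟩ := y_false_false h0 h0' h1 h1' δ.1
        refine ⟨y, false, false, hy0, hy1, ?_⟩
        subst hpar
        cases t0 <;> cases t1 <;> rfl
      · obtain ⟨y, b, hy0, hy1⟩ := y_diff h0 h0' h1 h1' hne δ.1
        refine ⟨y, b, !b, hy0, hy1, ?_⟩
        have : f = !(xor t0 t1) := by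
          cases f <;> cases t0 <;> cases t1 <;> simp_all
        subst this
        cases b <;> cases t0 <;> cases t1 <;> rfl
    obtain ⟨y, b0, b1, hy0, hy1, hb⟩ := hy
    obtain ⟨z, hz0, hz1⟩ := hf (xor b0 t0)
    rw [← hb] at hz1
    exact ⟨y, z, b0, b1, hy0, hy1, hz0, hz1⟩

end Pool.Agent.Work.MP_bdf4c5_gt
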