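import Pool.Agent.Work.MP_bdf4c5_gt.Walks

/-!
Counting sign changes along finite sets.
-/

set_option linter.unusedSectionVars false

namespace Pool.Agent.Work.MP_bdf4c5_gt

open Set

/-- number of changes from `false` to `true`, starting in state `b` -/
def rs : Bool → List Bool → ℕ
  | _, [] => 0
  | b, x :: l => (if b = false ∧ x = true then 1 else 0) + rs x l

/-- final state -/
def lst : Bool → List Bool → Bool
  | b, [] => b
  | _, x :: l => lst x l

theorem rs_append (b : Bool) (l1 l2 : List Bool) :
    rs b (l1 ++ l2) = rs b l1 + rs (lst b l1) l2 := by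
  induction l1 generalizing b with
  | nil => simp [rs, lst]
  | cons x l ih => simp only [List.cons_append, rs, lst, ih]; omega

theorem lst_append (b : Bool) (l1 l2 : List Bool) :
    lst b (l1 ++ l2) = lst (lst b l1) l2 := by
  induction l1 generalizing b with
  | nil => simp [lst]
  | cons x l ih => simp only [List.cons_append, lst, ih]

theorem rs_true_block : ∀ l : List Bool, (∀ x ∈ l, x = true) → rs true l = 0 ∧ lst true l = true
  | [], _ => by simp [rs, lst]
  | x :: l, h => by
    have hx : x = true := h x (by simp)
    subst hx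
    obtain ⟨h1, h2⟩ := rs_true_block l (fun y hy => h y (by simp [hy]))
    simp [rs, lst, h1, h2]

theorem rs_up_block (l : List Bool) (hne : l ≠ []) (h : ∀ x ∈ l, x = true) :
    rs false l = 1 ∧ lst false l = true := by
  cases l with
  | nil => exact absurd rfl hne
  | cons x l =>
    have hx : x = true := h x (by simp)
    subst hx
    obtain ⟨h1, h2⟩ := rs_true_block l (fun y hy => h y (by simp [hy]))
    simp [rs, lst, h1, h2]

theorem rs_false_block : ∀ (b : Bool) (l : List Bool), (∀ x ∈ l, x = false) → rs b l = 0
  | _, [], _ => by simp [rs]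
  | b, x :: l, h => by
    have hx : x = false := h x (by simp)
    subst hx
    simp [rs, rs_false_block false l (fun y hy => h y (by simp [hy]))]

theorem lst_false_block' : ∀ l : List Bool, (∀ x ∈ l, x = false) → lst false l = false
  | [], _ => by simp [lst]
  | x :: l, h => by
    have hx : x = false := h x (by simp)
    subst hx
    simp [lst, lst_false_block' l (fun y hy => h y (by simp [hy]))]

theorem lst_false_block (b : Bool) (l : List Bool) (hne : l ≠ []) (h : ∀ x ∈ l, x = false) :
    lst b l = false := by
  cases l with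
  | nil => exact absurd rfl hne
  | cons x l =>
    have hx : x = false := h x (by simp)
    subst hx
    simpa [lst] using lst_false_block' l (fun y hy => h y (by simp [hy]))

section

variable {Ω : Type} [LinearOrder Ω]

theorem sort_union (s t : Finset Ω) (h : ∀ x ∈ s, ∀ y ∈ t, x < y) :
    (s ∪ t).sort (· ≤ ·) = s.sort (· ≤ ·) ++ t.sort (· ≤ ·) := by
  induction s using Finset.induction_on_min with
  | empty => simp
  | insert a s has ih =>
    have h1 : ∀ x ∈ s, ∀ y ∈ t, x < y := fun x hx y hy => h x (Finset.mem_insert_of_mem hx) y hy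
    have h2 : a ∉ s := fun hmem => lt_irrefl _ (has a hmem)
    have h3 : a ∉ s ∪ t := by
      intro hmem
      rcases Finset.mem_union.mp hmem with h4 | h4
      · exact h2 h4
      · exact lt_irrefl _ (h a (Finset.mem_insert_self _ _) a h4)
    rw [Finset.insert_union, Finset.sort_insert (r := (· ≤ ·)) _ h3,
      Finset.sort_insert (r := (· ≤ ·)) _ h2, ih h1]
    · simp
    · intro b hb; exact (has b hb).le
    · intro b hb
      rcases Finset.mem_union.mp hb with h4 | h4
      · exact (has b h4).le
      · exact (h a (Finset.mem_insert_self _ _) b h4).le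

/-- The list of signs of `f > g` along the increasing enumeration of `s`. -/
def signs (f g : Ω → ℕ) (s : Finset Ω) : List Bool :=
  (s.sort (· ≤ ·)).map (fun x => decide (g x < f x))

theorem signs_union (f g : Ω → ℕ) (s t : Finset Ω) (h : ∀ x ∈ s, ∀ y ∈ t, x < y) :
    signs f g (s ∪ t) = signs f g s ++ signs f g t := by
  unfold signs
  rw [sort_union s t h, List.map_append]

theorem signs_congr {f g f' g' : Ω → ℕ} {s : Finset Ω} (hf : ∀ x ∈ s, f x = f' x)
    (hg : ∀ x ∈ s, g x = g' x) : signs f g s = signs f' g' s := by
  unfold signs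
  apply List.map_congr_left
  intro x hx
  rw [Finset.mem_sort] at hx
  rw [hf x hx, hg x hx]

theorem mem_signs_true {f g : Ω → ℕ} {s : Finset Ω} (h : ∀ x ∈ s, g x < f x) :
    ∀ b ∈ signs f g s, b = true := by
  intro b hb
  unfold signs at hb
  rw [List.mem_map] at hb
  obtain ⟨x, hx, rfl⟩ := hb
  rw [Finset.mem_sort] at hx
  simpa using h x hx

theorem mem_signs_false {f g : Ω → ℕ} {s : Finset Ω} (h : ∀ x ∈ s, f x ≤ g x) :
    ∀ b ∈ signs f g s, b = false := by
  intro b hb
  unfold signs at hb
  rw [List.mem_map] at hb
  obtain ⟨x, hx, rfl⟩ := hb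
  rw [Finset.mem_sort] at hx
  simpa using h x hx

theorem signs_ne_nil {f g : Ω → ℕ} {s : Finset Ω} (h : s.Nonempty) : signs f g s ≠ [] := by
  unfold signs
  intro hc
  rw [List.map_eq_nil_iff] at hc
  have := Finset.length_sort (s := s) (r := (· ≤ ·))
  rw [hc] at this
  simp at this
  rw [eq_comm, Finset.card_eq_zero] at this
  exact h.ne_empty this

end

end Pool.Agent.Work.MP_bdf4c5_gt
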