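import Pool.Agent.Work.MP_bdf4c5_gt.Pattern

/-!
The uniform (compactness) version of the pattern lemma.
-/

namespace Pool.Agent.Work.MP_bdf4c5_gt

open Set

/-- flattening of a family of pairs -/
def flat {ι : Type} (t : ι → ℝ × ℝ) : ι × Bool → ℝ := fun k => if k.2 then (t k.1).1 else (t k.1).2

theorem kronecker_prod {ι : Type} [Fintype ι] (t : ι → ℝ × ℝ)
    (hind : ∀ h : ι × Bool → ℤ, h ≠ 0 → ∀ z : ℤ, ∑ k, (h k : ℝ) * flat t k ≠ z)
    (x : ι → UnitAddCircle × UnitAddCircle) (U : Set (ι → UnitAddCircle × UnitAddCircle))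
    (hU : IsOpen U) (hne : U.Nonempty) :
    ∃ m : ℕ, (x + m • (fun i => (((t i).1 : UnitAddCircle), ((t i).2 : UnitAddCircle)))) ∈ U := by
  let φ : (ι × Bool → UnitAddCircle) → (ι → UnitAddCircle × UnitAddCircle) :=
    fun y i => (y (i, true), y (i, false))
  have hφ : Continuous φ := by fun_prop
  let ψ : (ι → UnitAddCircle × UnitAddCircle) → (ι × Bool → UnitAddCircle) :=
    fun y k => if k.2 then (y k.1).1 else (y k.1).2
  have hφψ : ∀ y, φ (ψ y) = y := by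
    intro y
    funext i
    simp [φ, ψ]
  obtain ⟨u, hu⟩ := hne
  obtain ⟨m, hm⟩ := kronecker (fun k => ((flat t k : ℝ) : UnitAddCircle))
    (fun h hh => chr_ne_one (flat t) hind h hh) (ψ x) (φ ⁻¹' U) (hU.preimage hφ)
    ⟨ψ u, by rw [Set.mem_preimage, hφψ]; exact hu⟩
  refine ⟨m, ?_⟩
  rw [Set.mem_preimage] at hm
  convert hm using 1
  funext i
  ext <;> simp [φ, ψ, flat]

theorem uniform_pattern {ι : Type} [Fintype ι] (t : ι → ℝ × ℝ)
    (hind : ∀ h : ι × Bool → ℤ, h ≠ 0 → ∀ z : ℤ, ∑ k, (h k : ℝ) * flat t k ≠ z)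
    {r0 r1 : ℝ} (h0 : 0 < r0) (h0' : r0 < 1/2) (h1 : 0 < r1) (h1' : r1 < 1/2)
    (hne : r0 ≠ r1) (τ0 τ1 : ι → Bool) :
    ∃ n : ℕ, ∀ c0 c1 : ι → ℕ, ∃ m < n, ∀ i, ∀ s0 s1 : ℝ, |s0 - r0| < 1 / ((n : ℝ) + 1) →
      |s1 - r1| < 1 / ((n : ℝ) + 1) →
      Fn (t i) (c0 i + m) s0 = τ0 i ∧ Fn (t i) (c1 i + m) s1 = τ1 i := by
  classical
  let θ : ι → UnitAddCircle × UnitAddCircle :=
    fun i => (((t i).1 : UnitAddCircle), ((t i).2 : UnitAddCircle))
  let O : ℕ → Set ((ι → UnitAddCircle × UnitAddCircle) × (ι → UnitAddCircle × UnitAddCircle)) :=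
    fun n => ⋃ m ∈ Finset.range n, ⋂ i,
    ({p | p.1 i + m • θ i ∈ Wset n r0 (τ0 i)} ∩
     {p | p.1 i + m • θ i + p.2 i ∈ Wset n r1 (τ1 i)})
  have hOopen : ∀ n, IsOpen (O n) := by
    intro n
    refine isOpen_biUnion (fun m _ => isOpen_iInter_of_finite (fun i => ?_))
    refine IsOpen.inter ?_ ?_
    · have hc : Continuous (fun p : (ι → UnitAddCircle × UnitAddCircle) ×
          (ι → UnitAddCircle × UnitAddCircle) => p.1 i + m • θ i) := by fun_prop
      exact (isOpen_Wset n r0 (τ0 i)).preimage hc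
    · have hc : Continuous (fun p : (ι → UnitAddCircle × UnitAddCircle) ×
          (ι → UnitAddCircle × UnitAddCircle) => p.1 i + m • θ i + p.2 i) := by fun_prop
      exact (isOpen_Wset n r1 (τ1 i)).preimage hc
  have hOmono : Monotone O := by
    intro n n' hnn' p hp
    simp only [O, Set.mem_iUnion, Finset.mem_range, Set.mem_iInter, Set.mem_inter_iff,
      Set.mem_ofPred_eq] at hp ⊢
    obtain ⟨m, hm, hp⟩ := hp
    exact ⟨m, lt_of_lt_of_le hm hnn', fun i => ⟨Wset_mono hnn' _ _ (hp i).1,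
      Wset_mono hnn' _ _ (hp i).2⟩⟩
  have hcover : Set.univ ⊆ ⋃ n, O n := by
    rintro ⟨x, δ⟩ -
    have hpat := fun i => pattern h0 h0' h1 h1' hne (δ i) (τ0 i) (τ1 i)
    choose N0 p hp using hpat
    let N : ℕ := Finset.univ.sup N0
    let U : Set (ι → UnitAddCircle × UnitAddCircle) := ⋂ i,
      ({y | y i ∈ Wset N r0 (τ0 i)} ∩ {y | y i + δ i ∈ Wset N r1 (τ1 i)})
    have hU : IsOpen U := by
      refine isOpen_iInter_of_finite (fun i => ?_)
      refine IsOpen.inter ?_ ?_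
      · exact (isOpen_Wset N r0 (τ0 i)).preimage (by fun_prop)
      · exact (isOpen_Wset N r1 (τ1 i)).preimage (by fun_prop)
    have hUne : U.Nonempty := by
      refine ⟨p, Set.mem_iInter.mpr (fun i => ?_)⟩
      exact hp i N (Finset.le_sup (Finset.mem_univ i))
    obtain ⟨m, hm⟩ := kronecker_prod t hind x U hU hUne
    refine Set.mem_iUnion.mpr ⟨max N (m+1), ?_⟩
    simp only [O, Set.mem_iUnion, Finset.mem_range, Set.mem_iInter, Set.mem_inter_iff,
      Set.mem_ofPred_eq]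
    refine ⟨m, lt_of_lt_of_le (Nat.lt_succ_self m) (le_max_right _ _), fun i => ?_⟩
    have := Set.mem_iInter.mp hm i
    exact ⟨Wset_mono (le_max_left _ _) _ _ this.1, Wset_mono (le_max_left _ _) _ _ this.2⟩
  obtain ⟨n, hn⟩ := isCompact_univ.elim_directed_cover O hOopen hcover
    (hOmono.directed_le)
  refine ⟨n, fun c0 c1 => ?_⟩
  have hmem := hn (Set.mem_univ
    ((fun i => c0 i • θ i, fun i => (c1 i • θ i - c0 i • θ i)) :
      (ι → UnitAddCircle × UnitAddCircle) × (ι → UnitAddCircle × UnitAddCircle)))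
  simp only [O, Set.mem_iUnion, Finset.mem_range, Set.mem_iInter, Set.mem_inter_iff,
      Set.mem_ofPred_eq] at hmem
  obtain ⟨m, hm, hmem⟩ := hmem
  refine ⟨m, hm, fun i s0 s1 hs0 hs1 => ?_⟩
  obtain ⟨hm0, hm1⟩ := hmem i
  have e : ∀ o : ℕ, o • θ i = ((((o : ℝ) * (t i).1 : ℝ) : UnitAddCircle),
      (((o : ℝ) * (t i).2 : ℝ) : UnitAddCircle)) := by
    intro o
    ext
    · simp only [θ, Prod.smul_fst]
      rw [← AddCircle.coe_nsmul, nsmul_eq_mul]
    · simp only [θ, Prod.smul_snd]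
      rw [← AddCircle.coe_nsmul, nsmul_eq_mul]
  constructor
  · refine Wset_spec h0 h0' ?_ hs0
    rw [← e]
    rw [← add_smul] at hm0
    exact hm0
  · refine Wset_spec h1 h1' ?_ hs1
    rw [← e]
    have : c0 i • θ i + m • θ i + (c1 i • θ i - c0 i • θ i) = (c1 i + m) • θ i := by
      rw [add_smul]; abel
    rw [this] at hm1
    exact hm1

end Pool.Agent.Work.MP_bdf4c5_gt
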