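import Pool.Agent.Work.MP_bdf4c5_gt.MooreMain
import Pool.Agent.Work.MP_bdf4c5_gt.Uniform

/-!
The space and its combinatorial core.
-/

set_option linter.unusedSectionVars false

namespace Pool.Agent.Work.MP_bdf4c5_gt

open Set

section

variable {Ω : Type} [LinearOrder Ω] [IsOmega1 Ω]

/-- The parameters: a ladder system, independent angles, and distinct reals in `(0,1/2)`. -/
structure Params (Ω : Type) [LinearOrder Ω] [IsOmega1 Ω] where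
  W : Ladder Ω
  θ : Ω → ℝ × ℝ
  ind : ∀ (k : ℕ) (a : Fin k → Ω), Function.Injective a → ∀ h : Fin k × Bool → ℤ, h ≠ 0 →
    ∀ z : ℤ, ∑ p, (h p : ℝ) * flat (fun i => θ (a i)) p ≠ z
  r : Ω → ℝ
  r_pos : ∀ β, 0 < r β
  r_lt : ∀ β, r β < 1 / 2
  r_inj : Function.Injective r

namespace Params

variable (P : Params Ω)

/-- The point `w_β` of the space, as a function of the coordinate `α`. -/
noncomputable def w (β α : Ω) : Bool :=
  open Classical in if α < β then Fn (P.θ α) (P.W.osc α β) (P.r β) else false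

theorem w_of_lt {α β : Ω} (h : α < β) : P.w β α = Fn (P.θ α) (P.W.osc α β) (P.r β) := by
  simp [w, h]

theorem w_of_le {α β : Ω} (h : β ≤ α) : P.w β α = false := by
  simp [w, not_lt.mpr h]

/-- condensation points -/
theorem condense {S : Set Ω} (hS : Stat S) (f g : Ω → ℝ) :
    ∃ ξ ∈ S, ∀ N : ℕ, Stat {η ∈ S | |f η - f ξ| < 1 / ((N : ℝ) + 1) ∧
      |g η - g ξ| < 1 / ((N : ℝ) + 1)} := by
  by_contra hcon
  push Not at hcon
  have h1 : ∀ ξ ∈ S, ∃ (N : ℕ) (p q : ℚ), |f ξ - p| < 1 / (2 * ((N : ℝ) + 1)) ∧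
      |g ξ - q| < 1 / (2 * ((N : ℝ) + 1)) ∧
      ¬ Stat {η ∈ S | |f η - p| < 1 / (2 * ((N : ℝ) + 1)) ∧
        |g η - q| < 1 / (2 * ((N : ℝ) + 1))} := by
    intro ξ hξ
    obtain ⟨N, hN⟩ := hcon ξ hξ
    have hpos : 0 < 1 / (2 * ((N : ℝ) + 1)) := by positivity
    obtain ⟨p, hp⟩ := Metric.denseRange_iff.mp Rat.denseRange_cast (f ξ) _ hpos
    obtain ⟨q, hq⟩ := Metric.denseRange_iff.mp Rat.denseRange_cast (g ξ) _ hpos
    rw [Real.dist_eq] at hp hq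
    refine ⟨N, p, q, hp, hq, fun hst => hN (hst.mono ?_)⟩
    rintro η ⟨h1, h2, h3⟩
    have e : 1 / ((N : ℝ) + 1) = 1 / (2 * ((N : ℝ) + 1)) + 1 / (2 * ((N : ℝ) + 1)) := by
      field_simp; ring
    refine ⟨h1, ?_, ?_⟩
    · rw [abs_lt] at *
      constructor <;> linarith [hp.1, hp.2, h2.1, h2.2]
    · rw [abs_lt] at *
      constructor <;> linarith [hq.1, hq.2, h3.1, h3.2]
  choose! N p q h1 using h1
  obtain ⟨⟨N0, p0, q0⟩, hst⟩ := hS.countable_fiber' (fun ξ => (N ξ, p ξ, q ξ))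
  obtain ⟨ξ, hξ⟩ := hst.nonempty'
  have e := hξ.2
  simp only [Prod.mk.injEq] at e
  obtain ⟨e1, e2, e3⟩ := e
  apply (h1 ξ hξ.1).2.2
  refine hst.mono ?_
  rintro η ⟨hη, hη2⟩
  simp only [Prod.mk.injEq] at hη2
  obtain ⟨d1, d2, d3⟩ := hη2
  rw [e1, e2, e3]
  have := h1 η hη
  rw [d1, d2, d3] at this
  exact ⟨hη, this.1, this.2.1⟩

/-- The combinatorial core. -/
theorem core {S : Set Ω} (hS : Stat S) (β β' : Ω → Ω)
    (hβ : ∀ ξ ∈ S, ξ ≤ β ξ ∧ ξ ≤ β' ξ ∧ β ξ ≠ β' ξ) (A : Ω → Finset Ω)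
    (hA : ∀ ξ ∈ S, ∀ α ∈ A ξ, ξ ≤ α) (τ τ' : Ω → Ω → Bool) :
    ∃ ξ ∈ S, ∃ η ∈ S, ∀ α ∈ A ξ, α < β η ∧ α < β' η ∧ P.w (β η) α = τ ξ α ∧
      P.w (β' η) α = τ' ξ α := by
  classical
  obtain ⟨k, hk⟩ := hS.countable_fiber' (fun ξ => (A ξ).card)
  -- enumeration
  obtain ⟨ξi, hξi⟩ := hk.nonempty'
  let a : Ω → Fin k → Ω := fun ξ => if h : (A ξ).card = k then (A ξ).orderEmbOfFin h
    else (A ξi).orderEmbOfFin hξi.2
  have ha_inj : ∀ ξ, Function.Injective (a ξ) := by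
    intro ξ
    by_cases h : (A ξ).card = k
    · simp only [a, h, dite_true]; exact ((A ξ).orderEmbOfFin h).injective
    · simp only [a, h, dite_false]; exact ((A ξi).orderEmbOfFin hξi.2).injective
  have ha_mem : ∀ ξ, (A ξ).card = k → ∀ i, a ξ i ∈ A ξ := by
    intro ξ h i
    simp only [a, h, dite_true]
    exact Finset.orderEmbOfFin_mem (A ξ) h i
  have ha_surj : ∀ ξ, (A ξ).card = k → ∀ α ∈ A ξ, ∃ i, a ξ i = α := by
    intro ξ h α hα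
    have := Finset.range_orderEmbOfFin (A ξ) h
    have h2 : α ∈ Set.range ((A ξ).orderEmbOfFin h) := by rw [this]; exact hα
    obtain ⟨i, hi⟩ := h2
    refine ⟨i, ?_⟩
    simp only [a, h, dite_true]
    exact hi
  obtain ⟨⟨T0, T1⟩, hT⟩ := hk.countable_fiber'
    (fun ξ => ((fun i => τ ξ (a ξ i), fun i => τ' ξ (a ξ i)) : (Fin k → Bool) × (Fin k → Bool)))
  obtain ⟨ξs, hξs, hcond⟩ := condense hT (fun ξ => P.r (β ξ)) (fun ξ => P.r (β' ξ))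
  have hξsS : ξs ∈ S := hξs.1.1
  have hrne : P.r (β ξs) ≠ P.r (β' ξs) := fun h => (hβ ξs hξsS).2.2 (P.r_inj h)
  have hunif : ∀ ξ, ∃ n : ℕ, ∀ c0 c1 : Fin k → ℕ, ∃ m < n, ∀ i, ∀ s0 s1 : ℝ,
      |s0 - P.r (β ξs)| < 1 / ((n : ℝ) + 1) → |s1 - P.r (β' ξs)| < 1 / ((n : ℝ) + 1) →
      Fn (P.θ (a ξ i)) (c0 i + m) s0 = T0 i ∧ Fn (P.θ (a ξ i)) (c1 i + m) s1 = T1 i := fun ξ =>
    uniform_pattern (fun i => P.θ (a ξ i)) (P.ind k (a ξ) (ha_inj ξ)) (P.r_pos _) (P.r_lt _)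
      (P.r_pos _) (P.r_lt _) hrne T0 T1
  choose n hn using hunif
  obtain ⟨n0, hn0⟩ := hT.countable_fiber' n
  -- the families
  obtain ⟨a1, ha1, b, c, hbc⟩ := P.W.moore (ι := Fin k) (κ := Bool)
    {x | ∃ ξ ∈ {ξ ∈ {ξ ∈ {ξ ∈ S | (A ξ).card = k} |
        ((fun i => τ ξ (a ξ i), fun i => τ' ξ (a ξ i)) : (Fin k → Bool) × (Fin k → Bool)) =
          (T0, T1)} | n ξ = n0}, x = a ξ}
    {y | ∃ η ∈ {η ∈ {ξ ∈ {ξ ∈ S | (A ξ).card = k} |
        ((fun i => τ ξ (a ξ i), fun i => τ' ξ (a ξ i)) : (Fin k → Bool) × (Fin k → Bool)) =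
          (T0, T1)} | |P.r (β η) - P.r (β ξs)| < 1 / ((n0 : ℝ) + 1) ∧
            |P.r (β' η) - P.r (β' ξs)| < 1 / ((n0 : ℝ) + 1)},
            y = fun c : Bool => if c then β η else β' η}
    (by
      intro δ
      obtain ⟨ξ, hξ, hδ⟩ := hn0.exists_gt δ
      refine ⟨a ξ, ⟨ξ, hξ, rfl⟩, fun i => hδ.le.trans ?_⟩
      exact hA ξ hξ.1.1.1 _ (ha_mem ξ hξ.1.1.2 i))
    (by
      intro δ
      obtain ⟨η, hη, hδ⟩ := (hcond n0).exists_gt δ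
      refine ⟨_, ⟨η, hη, rfl⟩, fun j => ?_⟩
      cases j
      · simp only [Bool.false_eq_true, if_false]
        exact hδ.le.trans (hβ η hη.1.1.1).2.1
      · simp only [if_true]
        exact hδ.le.trans (hβ η hη.1.1.1).1) n0
  obtain ⟨ξ, hξ, rfl⟩ := ha1
  have hnξ := hn ξ
  rw [hξ.2] at hnξ
  obtain ⟨m, hm, hpat⟩ := hnξ (fun i => c i true) (fun i => c i false)
  obtain ⟨⟨η, hη, hbη⟩, hosc⟩ := hbc m hm
  refine ⟨ξ, hξ.1.1.1, η, hη.1.1.1, ?_⟩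
  intro α hα
  obtain ⟨i, rfl⟩ := ha_surj ξ hξ.1.1.2 α hα
  have h1 := hosc i true
  have h0 := hosc i false
  rw [hbη] at h1 h0
  simp only [Bool.false_eq_true, if_false, if_true] at h1 h0
  obtain ⟨p1, p2⟩ := hpat i _ _ hη.2.1 hη.2.2
  have hT1 := hξ.1.2
  rw [Prod.mk.injEq] at hT1
  refine ⟨h1.1, h0.1, ?_, ?_⟩
  · rw [P.w_of_lt h1.1, h1.2, p1, ← hT1.1]
  · rw [P.w_of_lt h0.1, h0.2, p2, ← hT1.2]

/-- No uncountable relatively separated family of pairs. -/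
theorem pairs (β β' : Ω → Ω) (hβ : ∀ ξ, ξ ≤ β ξ ∧ ξ ≤ β' ξ ∧ β ξ ≠ β' ξ) (G : Ω → Finset Ω) :
    ∃ ξ η, β ξ < β η ∧ ∀ α ∈ G ξ, P.w (β η) α = P.w (β ξ) α ∧ P.w (β' η) α = P.w (β' ξ) α := by
  classical
  let G' : Ω → Finset Ω := fun ξ => insert (β ξ) (G ξ)
  obtain ⟨R, hR⟩ := (stat_univ (Ω := Ω)).fodor_finset (fun ξ => (G' ξ).filter (· < ξ))
    (by intro δ _ x hx; exact (Finset.mem_filter.mp hx).2)
  obtain ⟨v, hv⟩ := hR.countable_fiber'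
    (fun ξ => ((fun x : R => (P.w (β ξ) x, P.w (β' ξ) x)) : R → Bool × Bool))
  obtain ⟨ξ, hξ, η, hη, h⟩ := P.core hv β β' (fun ξ _ => hβ ξ) (fun ξ => (G' ξ).filter (ξ ≤ ·))
    (by intro ξ _ α hα; exact (Finset.mem_filter.mp hα).2)
    (fun ξ α => P.w (β ξ) α) (fun ξ α => P.w (β' ξ) α)
  refine ⟨ξ, η, ?_, ?_⟩
  · have : β ξ ∈ (G' ξ).filter (ξ ≤ ·) :=
      Finset.mem_filter.mpr ⟨Finset.mem_insert_self _ _, (hβ ξ).1⟩
    exact (h _ this).1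
  · intro α hα
    have hα' : α ∈ G' ξ := Finset.mem_insert_of_mem hα
    rcases lt_or_ge α ξ with hlt | hge
    · have hαR : α ∈ R := by
        rw [← hξ.1.2]
        exact Finset.mem_filter.mpr ⟨hα', hlt⟩
      have e := hη.2.trans hξ.2.symm
      have e2 := congrFun e ⟨α, hαR⟩
      simp only [Prod.mk.injEq] at e2
      exact e2
    · exact (h α (Finset.mem_filter.mpr ⟨hα', hge⟩)).2.2

theorem countable_zero (δ0 : Ω) : {β | ∀ α, δ0 ≤ α → P.w β α = false}.Countable := by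
  by_contra hunc
  have hunb : ∀ ξ : Ω, ∃ β ∈ {β | ∀ α, δ0 ≤ α → P.w β α = false}, ξ ≤ β := by
    intro ξ
    by_contra hcon
    push Not at hcon
    exact hunc ((countable_Iio ξ).mono (fun β hβ => hcon β hβ))
  choose β hβ1 hβ2 using hunb
  choose s hs using (exists_gt_omega (Ω := Ω))
  obtain ⟨ξ, -, η, -, h⟩ := P.core (stat_univ (Ω := Ω)) β (fun ξ => s (β ξ))
    (fun ξ _ => ⟨hβ2 ξ, (hβ2 ξ).trans (hs _).le, (hs _).ne⟩) (fun ξ => {max ξ δ0})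
    (by
      intro ξ _ α hα
      rw [Finset.mem_singleton] at hα
      rw [hα]; exact le_max_left _ _) (fun _ _ => true) (fun _ _ => true)
  have h1 := (h (max ξ δ0) (Finset.mem_singleton_self _)).2.2.1
  rw [hβ1 η (max ξ δ0) (le_max_right _ _)] at h1
  exact Bool.false_ne_true h1

end Params

end

end Pool.Agent.Work.MP_bdf4c5_gt
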