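import Pool.Agent.Work.MP_bdf4c5_gt.Omega1

/-!
Walks on `ω₁`: the lower trace `L` and the coherent finite-to-one function `ρ₁`.
-/

set_option linter.unusedSectionVars false

namespace Pool.Agent.Work.MP_bdf4c5_gt

open Set

/-- A ladder system (`C`-sequence). -/
structure Ladder (Ω : Type) [LinearOrder Ω] where
  C : Ω → Set Ω
  lt : ∀ β, ∀ γ ∈ C β, γ < β
  fin : ∀ β α, α < β → {γ ∈ C β | γ < α}.Finite
  cof : ∀ β α, α < β → ∃ γ ∈ C β, α ≤ γ

section

variable {Ω : Type} [LinearOrder Ω] [IsOmega1 Ω]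

theorem exists_ladder : Nonempty (Ladder Ω) := by
  have key : ∀ β : Ω, ∃ C : Set Ω, (∀ γ ∈ C, γ < β) ∧ (∀ α, α < β → {γ ∈ C | γ < α}.Finite) ∧
      (∀ α, α < β → ∃ γ ∈ C, α ≤ γ) := by
    intro β
    by_cases hne : (Set.Iio β).Nonempty
    · obtain ⟨f, hf⟩ := (countable_Iio β).exists_eq_range hne
      have hfin : ∀ n, f n < β := fun n => by
        have : f n ∈ Set.range f := ⟨n, rfl⟩
        rw [← hf] at this; exact this
      refine ⟨{γ | ∃ n, f n = γ ∧ ∀ m < n, f m < γ}, ?_, ?_, ?_⟩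
      · rintro γ ⟨n, rfl, -⟩; exact hfin n
      · intro α hα
        have : α ∈ Set.range f := by rw [← hf]; exact hα
        obtain ⟨n0, rfl⟩ := this
        refine ((Set.finite_Iic n0).image f).subset ?_
        rintro γ ⟨⟨n, rfl, hn⟩, hlt⟩
        refine ⟨n, ?_, rfl⟩
        by_contra hc
        exact absurd (hn n0 (not_le.mp hc)) (not_lt.mpr hlt.le)
      · intro α hα
        have : α ∈ Set.range f := by rw [← hf]; exact hα
        obtain ⟨n1, hn1⟩ := this
        have hex : ∃ n, α ≤ f n := ⟨n1, hn1.ge⟩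
        classical
        refine ⟨f (Nat.find hex), ⟨Nat.find hex, rfl, fun m hm => ?_⟩, Nat.find_spec hex⟩
        have h1 : ¬ α ≤ f m := Nat.find_min hex hm
        exact lt_of_lt_of_le (not_le.mp h1) (Nat.find_spec hex)
    · refine ⟨∅, by simp, fun α hα => absurd ⟨α, hα⟩ hne, fun α hα => absurd ⟨α, hα⟩ hne⟩
  choose C h1 h2 h3 using key
  exact ⟨⟨C, h1, h2, h3⟩⟩

namespace Ladder

variable (W : Ladder Ω)

/-- The finite set `C β ∩ α` for `α < β`. -/
noncomputable def lo (α β : Ω) : Finset Ω :=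
  open Classical in if h : α < β then (W.fin β α h).toFinset else ∅

theorem mem_lo {α β γ : Ω} (h : α < β) : γ ∈ W.lo α β ↔ γ ∈ W.C β ∧ γ < α := by
  unfold lo
  rw [dif_pos h]
  simp

theorem exists_hi {α β : Ω} (h : α < β) :
    ∃ γ, γ ∈ W.C β ∧ α ≤ γ ∧ ∀ γ' ∈ W.C β, α ≤ γ' → γ ≤ γ' := by
  have hne : {γ | γ ∈ W.C β ∧ α ≤ γ}.Nonempty := by
    obtain ⟨γ, h1, h2⟩ := W.cof β α h
    exact ⟨γ, h1, h2⟩
  refine ⟨WellFounded.min (wellFounded_lt (α := Ω)) _ hne, ?_, ?_, ?_⟩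
  · exact (WellFounded.min_mem (wellFounded_lt (α := Ω)) _ hne).1
  · exact (WellFounded.min_mem (wellFounded_lt (α := Ω)) _ hne).2
  · intro γ' h1 h2
    exact not_lt.mp (WellFounded.not_lt_min (wellFounded_lt (α := Ω))
      {γ | γ ∈ W.C β ∧ α ≤ γ} ⟨h1, h2⟩)

/-- `min (C β ∖ α)` -/
noncomputable def hi (α β : Ω) : Ω :=
  open Classical in if h : α < β then Classical.choose (W.exists_hi h) else β

theorem hi_spec {α β : Ω} (h : α < β) :
    W.hi α β ∈ W.C β ∧ α ≤ W.hi α β ∧ ∀ γ' ∈ W.C β, α ≤ γ' → W.hi α β ≤ γ' := by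
  unfold hi
  rw [dif_pos h]
  exact Classical.choose_spec (W.exists_hi h)

theorem hi_lt {α β : Ω} (h : α < β) : W.hi α β < β := W.lt β _ (W.hi_spec h).1

/-- The recursion defining the lower trace. -/
noncomputable def LF : Ω → Ω → Finset Ω :=
  WellFounded.fix (wellFounded_lt (α := Ω)) (fun β rec α =>
    open Classical in
    if h : α < β then ((rec (W.hi α β) (W.hi_lt h) α) ∪ W.lo α β).filter
      (fun x => ∀ γ ∈ W.lo α β, γ ≤ x) else ∅)

/-- The lower trace. -/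
noncomputable def L (α β : Ω) : Finset Ω := W.LF β α

theorem L_eq (α β : Ω) : W.L α β = open Classical in
    if α < β then ((W.L α (W.hi α β)) ∪ W.lo α β).filter
      (fun x => ∀ γ ∈ W.lo α β, γ ≤ x) else ∅ := by
  unfold L
  conv_lhs => rw [LF, WellFounded.fix_eq]
  rfl

theorem L_self (α : Ω) : W.L α α = ∅ := by
  rw [L_eq]; simp

theorem mem_L {α β x : Ω} (h : α < β) :
    x ∈ W.L α β ↔ (x ∈ W.L α (W.hi α β) ∨ x ∈ W.lo α β) ∧ ∀ γ ∈ W.lo α β, γ ≤ x := by
  rw [L_eq]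
  simp [h]

theorem L_of_not_lt {α β : Ω} (h : ¬ α < β) : W.L α β = ∅ := by
  rw [L_eq]; simp [h]

theorem L_lt {α β : Ω} : ∀ x ∈ W.L α β, x < α := by
  induction β using WellFoundedLT.induction with
  | ind β ih =>
    intro x hx
    by_cases h : α < β
    · rw [W.mem_L h] at hx
      rcases hx.1 with h1 | h1
      · exact ih _ (W.hi_lt h) x h1
      · exact ((W.mem_lo h).mp h1).2
    · rw [W.L_of_not_lt h] at hx
      simp at hx

/-- Concatenation of lower traces. -/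
theorem L_concat {α β γ : Ω} (h1 : α ≤ β) (h2 : β ≤ γ) (h3 : ∀ x ∈ W.L β γ, x < α)
    (h4 : ∀ x ∈ W.L β γ, ∀ y ∈ W.L α β, x < y) :
    W.L α γ = W.L α β ∪ W.L β γ := by
  classical
  induction γ using WellFoundedLT.induction with
  | ind γ ih =>
    rcases h1.eq_or_lt with rfl | h1'
    · rw [W.L_self]; simp
    rcases h2.eq_or_lt with rfl | h2'
    · rw [W.L_self]; simp
    have hαγ : α < γ := lt_trans h1' h2'
    -- the maximum of C γ ∩ β, if it exists, is in L β γ, so is < α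
    have hlo : ∀ x ∈ W.C γ, x < β → x < α := by
      intro x hx hxβ
      have hmem : x ∈ W.lo β γ := (W.mem_lo h2').mpr ⟨hx, hxβ⟩
      have hne : (W.lo β γ).Nonempty := ⟨x, hmem⟩
      have hmax : (W.lo β γ).max' hne ∈ W.L β γ := by
        rw [W.mem_L h2']
        exact ⟨Or.inr (Finset.max'_mem _ _), fun y hy => Finset.le_max' _ _ hy⟩
      exact lt_of_le_of_lt (Finset.le_max' _ _ hmem) (h3 _ hmax)
    have hloeq : W.lo α γ = W.lo β γ := by
      ext x
      rw [W.mem_lo hαγ, W.mem_lo h2']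
      constructor
      · rintro ⟨a, b⟩; exact ⟨a, lt_of_lt_of_le b h1⟩
      · rintro ⟨a, b⟩; exact ⟨a, hlo x a b⟩
    have hhieq : W.hi α γ = W.hi β γ := by
      obtain ⟨a1, a2, a3⟩ := W.hi_spec hαγ
      obtain ⟨b1, b2, b3⟩ := W.hi_spec h2'
      apply le_antisymm
      · exact a3 _ b1 (h1.trans b2)
      · apply b3 _ a1
        by_contra hc
        exact absurd (hlo _ a1 (not_le.mp hc)) (not_lt.mpr a2)
    have hβhi : β ≤ W.hi β γ := (W.hi_spec h2').2.1
    -- elements of L β (hi β γ)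
    have h3' : ∀ x ∈ W.L β (W.hi β γ), x < α := by
      intro x hx
      by_cases hc : ∀ z ∈ W.lo β γ, z ≤ x
      · exact h3 x ((W.mem_L h2').mpr ⟨Or.inl hx, hc⟩)
      · push Not at hc
        obtain ⟨z, hz, hxz⟩ := hc
        have := (W.mem_lo h2').mp hz
        exact lt_trans hxz (hlo z this.1 this.2)
    have hlo_lt : ∀ z ∈ W.lo β γ, ∀ y ∈ W.L α β, z < y := by
      intro z hz y hy
      have hne : (W.lo β γ).Nonempty := ⟨z, hz⟩
      have hmax : (W.lo β γ).max' hne ∈ W.L β γ := by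
        rw [W.mem_L h2']
        exact ⟨Or.inr (Finset.max'_mem _ _), fun y hy => Finset.le_max' _ _ hy⟩
      exact lt_of_le_of_lt (Finset.le_max' _ _ hz) (h4 _ hmax y hy)
    have h4' : ∀ x ∈ W.L β (W.hi β γ), ∀ y ∈ W.L α β, x < y := by
      intro x hx y hy
      by_cases hc : ∀ z ∈ W.lo β γ, z ≤ x
      · exact h4 x ((W.mem_L h2').mpr ⟨Or.inl hx, hc⟩) y hy
      · push Not at hc
        obtain ⟨z, hz, hxz⟩ := hc
        exact lt_trans hxz (hlo_lt z hz y hy)
    have ihγ := ih (W.hi β γ) (W.hi_lt h2') hβhi h3' h4'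
    ext x
    rw [W.mem_L hαγ, hhieq, hloeq, ihγ, Finset.mem_union, Finset.mem_union, W.mem_L h2']
    constructor
    · rintro ⟨(h | h) | h, h'⟩
      · exact Or.inl h
      · exact Or.inr ⟨Or.inl h, h'⟩
      · exact Or.inr ⟨Or.inr h, h'⟩
    · rintro (h | ⟨h | h, h'⟩)
      · exact ⟨Or.inl (Or.inl h), fun z hz => (hlo_lt z hz x h).le⟩
      · exact ⟨Or.inl (Or.inr h), h'⟩
      · exact ⟨Or.inr h, h'⟩

/-- Near a limit point, lower traces are nonempty and high. -/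
theorem L_near_limit {δ : Ω} (hδ : IsLim δ) {ν : Ω} (hν : ν < δ) :
    ∃ ζ < δ, ∀ ξ, ζ < ξ → ξ < δ → (W.L ξ δ).Nonempty ∧ ∀ x ∈ W.L ξ δ, ν < x := by
  obtain ⟨ν', h1, h2⟩ := hδ.2 ν hν
  obtain ⟨ζ, h3, h4⟩ := W.cof δ ν' h2
  refine ⟨ζ, W.lt δ ζ h3, fun ξ hξ1 hξ2 => ?_⟩
  have hmem : ζ ∈ W.lo ξ δ := (W.mem_lo hξ2).mpr ⟨h3, hξ1⟩
  constructor
  · refine ⟨(W.lo ξ δ).max' ⟨ζ, hmem⟩, ?_⟩
    rw [W.mem_L hξ2]
    exact ⟨Or.inr (Finset.max'_mem _ _), fun y hy => Finset.le_max' _ _ hy⟩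
  · intro x hx
    rw [W.mem_L hξ2] at hx
    exact lt_of_lt_of_le (lt_of_lt_of_le h1 h4) (hx.2 ζ hmem)

/-- The recursion defining `ρ₁`. -/
noncomputable def rhoF : Ω → Ω → ℕ :=
  WellFounded.fix (wellFounded_lt (α := Ω)) (fun β rec α =>
    open Classical in
    if h : α < β then max (W.lo α β).card (rec (W.hi α β) (W.hi_lt h) α) else 0)

/-- `ρ₁` -/
noncomputable def rho (α β : Ω) : ℕ := W.rhoF β α

theorem rho_of_lt {α β : Ω} (h : α < β) :
    W.rho α β = max (W.lo α β).card (W.rho α (W.hi α β)) := by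
  unfold rho
  conv_lhs => rw [rhoF, WellFounded.fix_eq]
  rw [dif_pos h]
  rfl

/-- The set of possible values of `hi ξ β` when `(lo ξ β).card ≤ n` is finite. -/
theorem finite_hi (β : Ω) (n : ℕ) :
    {η | ∃ ξ, ξ < β ∧ (W.lo ξ β).card ≤ n ∧ W.hi ξ β = η}.Finite := by
  by_contra hinf
  -- take n+2 elements of the infinite set, all in C β
  have hinf' : {η | ∃ ξ, ξ < β ∧ (W.lo ξ β).card ≤ n ∧ W.hi ξ β = η}.Infinite := hinf
  obtain ⟨t, hts, htc⟩ := hinf'.exists_subset_card_eq (n + 2)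
  have hne : t.Nonempty := by
    rw [← Finset.card_pos]; omega
  have hmax := Finset.max'_mem t hne
  obtain ⟨ξ, hξ, hcard, hhi⟩ := hts hmax
  have hsub : t.erase (t.max' hne) ⊆ W.lo ξ β := by
    intro η hη
    rw [Finset.mem_erase] at hη
    obtain ⟨ξ', hξ', -, hhi'⟩ := hts hη.2
    have hηC : η ∈ W.C β := by rw [← hhi']; exact (W.hi_spec hξ').1
    have hηlt : η < t.max' hne := lt_of_le_of_ne (Finset.le_max' _ _ hη.2) hη.1
    rw [W.mem_lo hξ]
    refine ⟨hηC, ?_⟩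
    by_contra hc
    have := (W.hi_spec hξ).2.2 η hηC (not_lt.mp hc)
    rw [hhi] at this
    exact absurd hηlt (not_lt.mpr this)
  have := Finset.card_le_card hsub
  rw [Finset.card_erase_of_mem hmax, htc] at this
  omega

theorem rho_finite_to_one (β : Ω) (n : ℕ) : {ξ | ξ < β ∧ W.rho ξ β ≤ n}.Finite := by
  induction β using WellFoundedLT.induction with
  | ind β ih =>
    have hfin := W.finite_hi β n
    have : {ξ | ξ < β ∧ W.rho ξ β ≤ n} ⊆
        (⋃ η ∈ {η | ∃ ξ, ξ < β ∧ (W.lo ξ β).card ≤ n ∧ W.hi ξ β = η}, 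
          ({ξ | η < β ∧ ξ < η ∧ W.rho ξ η ≤ n} ∪ {η})) := by
      rintro ξ ⟨h1, h2⟩
      rw [W.rho_of_lt h1] at h2
      have h3 : (W.lo ξ β).card ≤ n := le_trans (le_max_left _ _) h2
      have h4 : W.rho ξ (W.hi ξ β) ≤ n := le_trans (le_max_right _ _) h2
      refine Set.mem_biUnion (x := W.hi ξ β) ⟨ξ, h1, h3, rfl⟩ ?_
      rcases (W.hi_spec h1).2.1.eq_or_lt with h5 | h5
      · right; exact h5
      · left; exact ⟨W.hi_lt h1, h5, h4⟩
    refine (hfin.biUnion ?_).subset this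
    intro η _
    refine Set.Finite.union ?_ (Set.finite_singleton η)
    by_cases hη : η < β
    · exact (ih η hη).subset (fun ξ hξ => hξ.2)
    · convert Set.finite_empty
      ext ξ
      simp [hη]

/-- coherence of `ρ₁` -/
theorem rho_coherent (β : Ω) : ∀ α, α ≤ β → {ξ | ξ < α ∧ W.rho ξ α ≠ W.rho ξ β}.Finite := by
  induction β using WellFoundedLT.induction with
  | ind β ih =>
    intro α hαβ
    rcases hαβ.eq_or_lt with rfl | hlt
    · convert Set.finite_empty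
      ext ξ; simp
    -- the finite set of values of hi ξ β for ξ < α
    let H : Set Ω := insert (W.hi α β) (W.lo α β : Set Ω)
    have hH : H.Finite := (Finset.finite_toSet _).insert _
    have hhi : ∀ ξ, ξ < α → W.hi ξ β ∈ H := by
      intro ξ hξ
      have hξβ := lt_trans hξ hlt
      obtain ⟨a1, a2, a3⟩ := W.hi_spec hξβ
      by_cases hc : W.hi ξ β < α
      · right
        exact (W.mem_lo hlt).mpr ⟨a1, hc⟩
      · left
        obtain ⟨b1, b2, b3⟩ := W.hi_spec hlt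
        exact le_antisymm (a3 _ b1 (hξ.le.trans b2)) (b3 _ a1 (not_lt.mp hc))
    let M : ℕ := (W.lo α β).card
    have hM : ∀ ξ, ξ < α → (W.lo ξ β).card ≤ M := by
      intro ξ hξ
      apply Finset.card_le_card
      intro x hx
      rw [W.mem_lo (lt_trans hξ hlt)] at hx
      rw [W.mem_lo hlt]
      exact ⟨hx.1, lt_trans hx.2 hξ⟩
    have hbad : ∀ η ∈ H, ({ξ | ξ < η ∧ W.rho ξ η ≤ M} ∪ {η} ∪
        {ξ | ξ < min η α ∧ W.rho ξ η ≠ W.rho ξ α}).Finite := by
      intro η hη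
      have hηβ : η < β := by
        rcases hη with rfl | hη
        · exact W.hi_lt hlt
        · exact W.lt β η ((W.mem_lo hlt).mp hη).1
      refine ((W.rho_finite_to_one η M).union (Set.finite_singleton η)).union ?_
      rcases le_total η α with h | h
      · rw [min_eq_left h]
        exact ih α hlt η h
      · rw [min_eq_right h]
        refine (ih η hηβ α h).subset ?_
        rintro ξ ⟨h1, h2⟩
        exact ⟨h1, fun h3 => h2 h3.symm⟩
    refine (hH.biUnion hbad).subset ?_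
    rintro ξ ⟨h1, h2⟩
    have hξβ := lt_trans h1 hlt
    refine Set.mem_biUnion (hhi ξ h1) ?_
    by_contra hc
    rw [Set.mem_union, Set.mem_union, not_or, not_or] at hc
    obtain ⟨⟨c1, c2⟩, c3⟩ := hc
    have h3 : ξ ≤ W.hi ξ β := (W.hi_spec hξβ).2.1
    have h4 : ξ < W.hi ξ β := lt_of_le_of_ne h3 (fun h => c2 h)
    have h5 : M < W.rho ξ (W.hi ξ β) := by
      by_contra hcc
      exact c1 ⟨h4, not_lt.mp hcc⟩
    have h6 : W.rho ξ (W.hi ξ β) = W.rho ξ α := by
      by_contra hcc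
      exact c3 ⟨lt_min h4 h1, hcc⟩
    apply h2
    rw [W.rho_of_lt hξβ, max_eq_right]
    · exact h6.symm
    · exact (hM ξ h1).trans h5.le

end Ladder

end

end Pool.Agent.Work.MP_bdf4c5_gt
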